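import Mathlib

/-!
An upper bound for the discriminant of a number field by local data outside a finite set of primes.
-/

set_option autoImplicit false

namespace Pool.Agent.KS6_8.VJ

open nonZeroDivisors NumberField IsDedekindDomain

theorem sum_biUnion_le' {α β : Type*} [DecidableEq α] [DecidableEq β] (S : Finset α) (t : α → Finset β) (f : β → ℝ)
    (hf : ∀ b, 0 ≤ f b) : ∑ b ∈ S.biUnion t, f b ≤ ∑ a ∈ S, ∑ b ∈ t a, f b := by
  induction S using Finset.induction_on with
  | empty => simp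
  | insert a S ha ih =>
    rw [Finset.biUnion_insert, Finset.sum_insert ha]
    have h1 := Finset.sum_union_inter (s₁ := t a) (s₂ := S.biUnion t) (f := f)
    have h2 : 0 ≤ ∑ b ∈ t a ∩ S.biUnion t, f b := Finset.sum_nonneg fun b _ => hf b
    linarith

section

variable {L : Type} [Field L] [NumberField L]

/-- the prime `v` of `L` is above a prime of `S` -/
def Above (S : Finset ℕ) (v : HeightOneSpectrum (𝓞 L)) : Prop := ∃ p ∈ S, ((p : ℕ) : 𝓞 L) ∈ v.asIdeal

theorem finite_mult (I : Ideal (𝓞 L)) (hI : I ≠ ⊥) :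
    {v : HeightOneSpectrum (𝓞 L) | multiplicity v.asIdeal I ≠ 0}.Finite := by
  refine (Ideal.finite_factors hI).subset ?_
  intro v hv
  exact multiplicity_ne_zero.1 hv

theorem log_absNorm (I : Ideal (𝓞 L)) (hI : I ≠ ⊥) :
    Real.log (Ideal.absNorm I) = ∑ v ∈ (finite_mult I hI).toFinset,
      (multiplicity v.asIdeal I : ℝ) * Real.log (Ideal.absNorm v.asIdeal) := by
  have h1 := Ideal.finprod_heightOneSpectrum_pow_multiplicity hI
  have h2 : ∏ᶠ v : HeightOneSpectrum (𝓞 L), v.asIdeal ^ multiplicity v.asIdeal I =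
      ∏ v ∈ (finite_mult I hI).toFinset, v.asIdeal ^ multiplicity v.asIdeal I := by
    refine finprod_eq_prod_of_mulSupport_subset _ ?_
    intro v hv
    rw [Set.Finite.coe_toFinset]
    intro h0
    apply hv
    show v.asIdeal ^ multiplicity v.asIdeal I = 1
    rw [h0, pow_zero]
  rw [h2] at h1
  conv_lhs => rw [← h1]
  rw [map_prod, Nat.cast_prod, Real.log_prod]
  · refine Finset.sum_congr rfl fun v _ => ?_
    rw [map_pow, Nat.cast_pow, Real.log_pow]
  · intro v _
    rw [map_pow, Nat.cast_pow]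
    have : Ideal.absNorm v.asIdeal ≠ 0 := Ideal.absNorm_eq_zero_iff.not.2 v.ne_bot
    positivity

theorem sum_above_le {p : ℕ} (hp : p ≠ 0) (F : Finset (HeightOneSpectrum (𝓞 L)))
    (hF : ∀ v ∈ F, ((p : ℕ) : 𝓞 L) ∈ v.asIdeal) :
    ∑ v ∈ F, Real.log (Ideal.absNorm v.asIdeal) ≤ Module.finrank ℚ L * Real.log p := by
  classical
  have hinj : Function.Injective (fun v : HeightOneSpectrum (𝓞 L) => v.asIdeal) := fun v w h => HeightOneSpectrum.ext h
  have h1 : ∏ v ∈ F, v.asIdeal ∣ Ideal.span {((p : ℕ) : 𝓞 L)} := by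
    have h2 : ∏ I ∈ F.image (fun v => v.asIdeal), I ∣ Ideal.span {((p : ℕ) : 𝓞 L)} := by
      refine Finset.prod_primes_dvd _ ?_ ?_
      · intro I hI
        obtain ⟨v, -, rfl⟩ := Finset.mem_image.1 hI
        exact v.prime
      · intro I hI
        obtain ⟨v, hv, rfl⟩ := Finset.mem_image.1 hI
        rw [Ideal.dvd_span_singleton]
        exact hF v hv
    rwa [Finset.prod_image fun v _ w _ h => hinj h] at h2
  have h3 : Ideal.absNorm (∏ v ∈ F, v.asIdeal) ≤ p ^ Module.finrank ℤ (𝓞 L) := by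
    rw [← Ideal.absNorm_span_natCast]
    refine Nat.le_of_dvd (Nat.pos_of_ne_zero ?_) (map_dvd Ideal.absNorm h1)
    rw [Ne, Ideal.absNorm_eq_zero_iff, Ideal.span_singleton_eq_bot]
    exact_mod_cast hp
  rw [map_prod] at h3
  have h4 : ∀ v ∈ F, (Ideal.absNorm v.asIdeal : ℝ) ≠ 0 := fun v _ => by
    have : Ideal.absNorm v.asIdeal ≠ 0 := Ideal.absNorm_eq_zero_iff.not.2 v.ne_bot
    exact_mod_cast this
  rw [← Real.log_prod h4, ← RingOfIntegers.rank L, ← Real.log_pow]
  refine Real.log_le_log ?_ ?_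
  · exact Finset.prod_pos fun v hv => lt_of_le_of_ne (Nat.cast_nonneg _) (h4 v hv).symm
  · exact_mod_cast h3

theorem place_le (v : HeightOneSpectrum (𝓞 L)) (x : L) (m : ℕ) (h : v.valuation L x ≤ WithZero.exp (-(m : ℤ))) :
    FinitePlace.mk v x ≤ ((Ideal.absNorm v.asIdeal : ℝ) ^ m)⁻¹ := by
  have h1 : FinitePlace.mk v x = NumberField.HeightOneSpectrum.adicAbv L v x := FinitePlace.norm_embedding v x
  rw [h1, NumberField.HeightOneSpectrum.adicAbv_def]
  have hN := NumberField.HeightOneSpectrum.one_lt_absNorm_nnreal v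
  have h2 := (WithZeroMulInt.toNNReal_strictMono hN).monotone h
  have h3 : WithZeroMulInt.toNNReal hN.ne_zero (WithZero.exp (-(m : ℤ))) = ((Ideal.absNorm v.asIdeal : NNReal) ^ m)⁻¹ := by
    rw [WithZeroMulInt.toNNReal_neg_apply _ WithZero.exp_ne_zero]
    have : (WithZero.unzero (WithZero.exp_ne_zero (a := (-(m : ℤ))))).toAdd = -(m : ℤ) := rfl
    rw [this, zpow_neg, zpow_natCast]
  rw [h3] at h2
  exact_mod_cast h2

variable {K : Type} [Field K] [NumberField K] [Algebra K L]

open Classical in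
/-- **DISC.** -/
theorem disc_le (S : Finset ℕ) (hS : ∀ p ∈ S, p ≠ 0) {n : ℕ} (ρ : Fin (n + 1) → L) (hρ : ∃ i, ρ i ≠ 0)
    (h : ∀ v : HeightOneSpectrum (𝓞 L), ¬ Above S v → ∀ m : ℕ, v.asIdeal ^ m ∣ differentIdeal (𝓞 K) (𝓞 L) →
      ∀ i, v.valuation L (ρ i) ≤ WithZero.exp (-(m : ℤ)))
    (E : ℕ) (hE : ∀ v : HeightOneSpectrum (𝓞 L), Above S v → ¬ v.asIdeal ^ (E + 1) ∣ differentIdeal ℤ (𝓞 L)) :
    Real.log |(discr L : ℝ)| ≤ Module.finrank K L * Real.log |(discr K : ℝ)| +
      E * (Module.finrank ℚ L * ∑ p ∈ S, Real.log p) +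
      ∑ᶠ v : HeightOneSpectrum (𝓞 L), if Above S v then 0 else -Real.log (⨆ i, FinitePlace.mk v (ρ i)) := by
  set D := differentIdeal (𝓞 K) (𝓞 L) with hD
  have hD0 : D ≠ ⊥ := differentIdeal_ne_bot
  set F := (finite_mult D hD0).toFinset with hF
  -- the tower formula
  have h1 : Real.log |(discr L : ℝ)| = Real.log (Ideal.absNorm D) + Module.finrank K L * Real.log |(discr K : ℝ)| := by
    have h2 := NumberField.natAbs_discr_eq_absNorm_differentIdeal_mul_natAbs_discr_pow K (𝓞 K) L (𝓞 L)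
    have h3 : |(discr L : ℝ)| = ((discr L).natAbs : ℝ) := by
      rw [Nat.cast_natAbs, Int.cast_abs]
    have h4 : |(discr K : ℝ)| = ((discr K).natAbs : ℝ) := by
      rw [Nat.cast_natAbs, Int.cast_abs]
    rw [h3, h4, h2, Nat.cast_mul, Nat.cast_pow, Real.log_mul, Real.log_pow]
    · have : Ideal.absNorm D ≠ 0 := Ideal.absNorm_eq_zero_iff.not.2 hD0
      exact_mod_cast this
    · have : (discr K).natAbs ≠ 0 := Int.natAbs_ne_zero.2 (discr_ne_zero K)
      positivity
  have hN : ∀ v : HeightOneSpectrum (𝓞 L), (1 : ℝ) < Ideal.absNorm v.asIdeal := fun v => by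
    exact_mod_cast NumberField.HeightOneSpectrum.one_lt_absNorm v
  -- local bounds outside `S`
  have hsup0 : ∀ v : HeightOneSpectrum (𝓞 L), 0 < ⨆ i, FinitePlace.mk v (ρ i) := by
    intro v
    obtain ⟨i, hi⟩ := hρ
    refine lt_of_lt_of_le ?_ (le_ciSup (Set.finite_range fun i => FinitePlace.mk v (ρ i)).bddAbove i)
    exact FinitePlace.pos_iff.2 hi
  have hloc : ∀ v : HeightOneSpectrum (𝓞 L), ¬ Above S v →
      (multiplicity v.asIdeal D : ℝ) * Real.log (Ideal.absNorm v.asIdeal) ≤ -Real.log (⨆ i, FinitePlace.mk v (ρ i)) := by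
    intro v hv
    have h2 : (⨆ i, FinitePlace.mk v (ρ i)) ≤ ((Ideal.absNorm v.asIdeal : ℝ) ^ multiplicity v.asIdeal D)⁻¹ := by
      refine ciSup_le fun i => place_le v _ _ (h v hv _ ?_ i)
      exact pow_multiplicity_dvd _ _
    have h3 := Real.log_le_log (hsup0 v) h2
    rw [Real.log_inv, Real.log_pow] at h3
    linarith
  have hnn : ∀ v : HeightOneSpectrum (𝓞 L), 0 ≤ (if Above S v then 0 else -Real.log (⨆ i, FinitePlace.mk v (ρ i))) := by
    intro v
    split_ifs with hv
    · exact le_rfl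
    · refine le_trans ?_ (hloc v hv)
      exact mul_nonneg (Nat.cast_nonneg _) (Real.log_nonneg (hN v).le)
  have hfin : {v : HeightOneSpectrum (𝓞 L) | (if Above S v then 0 else -Real.log (⨆ i, FinitePlace.mk v (ρ i))) ≠ 0}.Finite := by
    obtain ⟨i, hi⟩ := hρ
    have h2 := FinitePlace.hasFiniteMulSupport hi
    have h3 : {v : HeightOneSpectrum (𝓞 L) | FinitePlace.mk v (ρ i) ≠ 1}.Finite := by
      have h4 := Set.Finite.preimage (f := FinitePlace.mk) (Set.injOn_of_injective fun v w hvw => FinitePlace.mk_eq_iff.1 hvw) h2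
      exact h4
    refine h3.subset ?_
    intro v hv h1'
    apply hv
    by_cases hA : Above S v
    · rw [if_pos hA]
    · rw [if_neg hA]
      have h5 : (⨆ i, FinitePlace.mk v (ρ i)) ≤ 1 := by
        refine ciSup_le fun j => ?_
        have := place_le v (ρ j) 0 (h v hA 0 (by rw [pow_zero]; exact one_dvd _) j)
        simpa using this
      have h6 : 1 ≤ (⨆ i, FinitePlace.mk v (ρ i)) := by
        rw [← h1']
        exact le_ciSup (Set.finite_range fun i => FinitePlace.mk v (ρ i)).bddAbove i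
      rw [le_antisymm h5 h6, Real.log_one, neg_zero]
  -- splitting
  have h7 : Real.log (Ideal.absNorm D) =
      ∑ v ∈ F with Above S v, (multiplicity v.asIdeal D : ℝ) * Real.log (Ideal.absNorm v.asIdeal) +
      ∑ v ∈ F with ¬ Above S v, (multiplicity v.asIdeal D : ℝ) * Real.log (Ideal.absNorm v.asIdeal) := by
    rw [Finset.sum_filter_add_sum_filter_not]
    exact log_absNorm D hD0
  have h8 : ∑ v ∈ F with ¬ Above S v, (multiplicity v.asIdeal D : ℝ) * Real.log (Ideal.absNorm v.asIdeal) ≤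
      ∑ᶠ v : HeightOneSpectrum (𝓞 L), if Above S v then 0 else -Real.log (⨆ i, FinitePlace.mk v (ρ i)) := by
    rw [finsum_eq_sum_of_support_subset (s := hfin.toFinset ∪ F) _ (by
      intro v hv
      rw [Finset.coe_union, Set.Finite.coe_toFinset]
      exact Or.inl hv)]
    calc ∑ v ∈ F with ¬ Above S v, (multiplicity v.asIdeal D : ℝ) * Real.log (Ideal.absNorm v.asIdeal)
        ≤ ∑ v ∈ F with ¬ Above S v, (if Above S v then 0 else -Real.log (⨆ i, FinitePlace.mk v (ρ i))) := by
          refine Finset.sum_le_sum fun v hv => ?_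
          have hv' := (Finset.mem_filter.1 hv).2
          rw [if_neg hv']
          exact hloc v hv'
      _ ≤ _ := Finset.sum_le_sum_of_subset_of_nonneg
          ((Finset.filter_subset _ _).trans Finset.subset_union_right) fun v _ _ => hnn v
  have h9 : ∑ v ∈ F with Above S v, (multiplicity v.asIdeal D : ℝ) * Real.log (Ideal.absNorm v.asIdeal) ≤
      E * (Module.finrank ℚ L * ∑ p ∈ S, Real.log p) := by
    have hDZ : D ∣ differentIdeal ℤ (𝓞 L) := by
      rw [differentIdeal_eq_differentIdeal_mul_differentIdeal ℤ (𝓞 K) (𝓞 L)]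
      exact dvd_mul_right _ _
    have hm : ∀ v : HeightOneSpectrum (𝓞 L), Above S v → multiplicity v.asIdeal D ≤ E := by
      intro v hv
      by_contra hlt
      push Not at hlt
      apply hE v hv
      exact ((pow_dvd_pow _ hlt).trans (pow_multiplicity_dvd _ _)).trans hDZ
    calc ∑ v ∈ F with Above S v, (multiplicity v.asIdeal D : ℝ) * Real.log (Ideal.absNorm v.asIdeal)
        ≤ ∑ v ∈ F with Above S v, (E : ℝ) * Real.log (Ideal.absNorm v.asIdeal) := by
          refine Finset.sum_le_sum fun v hv => ?_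
          exact mul_le_mul_of_nonneg_right (by exact_mod_cast hm v (Finset.mem_filter.1 hv).2)
            (Real.log_nonneg (hN v).le)
      _ = E * ∑ v ∈ F with Above S v, Real.log (Ideal.absNorm v.asIdeal) := by rw [Finset.mul_sum]
      _ ≤ E * (Module.finrank ℚ L * ∑ p ∈ S, Real.log p) := by
          refine mul_le_mul_of_nonneg_left ?_ (Nat.cast_nonneg E)
          rw [Finset.mul_sum]
          calc ∑ v ∈ F with Above S v, Real.log (Ideal.absNorm v.asIdeal)
              ≤ ∑ v ∈ S.biUnion (fun p => F.filter fun v => ((p : ℕ) : 𝓞 L) ∈ v.asIdeal),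
                  Real.log (Ideal.absNorm v.asIdeal) := by
                refine Finset.sum_le_sum_of_subset_of_nonneg ?_ fun v _ _ => Real.log_nonneg (hN v).le
                intro v hv
                obtain ⟨hvF, p, hp, hpv⟩ := Finset.mem_filter.1 hv
                exact Finset.mem_biUnion.2 ⟨p, hp, Finset.mem_filter.2 ⟨hvF, hpv⟩⟩
            _ ≤ ∑ p ∈ S, ∑ v ∈ F.filter (fun v => ((p : ℕ) : 𝓞 L) ∈ v.asIdeal), Real.log (Ideal.absNorm v.asIdeal) := by
                exact sum_biUnion_le' _ _ _ fun v => Real.log_nonneg (hN v).le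
            _ ≤ ∑ p ∈ S, Module.finrank ℚ L * Real.log p :=
                Finset.sum_le_sum fun p hp => sum_above_le (hS p hp) _ fun v hv => (Finset.mem_filter.1 hv).2
  rw [h1, h7]
  linarith

end

end Pool.Agent.KS6_8.VJ
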