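import Mathlib

/-!
The trace-dual identity for elements of the different ideal, and its specialisations.
-/

set_option autoImplicit false

namespace Pool.Agent.KS6_8.VJ

open nonZeroDivisors TensorProduct

section dual

variable {R A ι : Type*} [CommRing R] [IsDomain R] [IsIntegrallyClosed R] [CommRing A] [IsDedekindDomain A]
  [Algebra R A] [Module.IsTorsionFree R A] [Module.Finite R A] [Fintype ι] [DecidableEq ι]

theorem exists_dual (K F : Type*) [Field K] [Field F] [Algebra R K] [Algebra A F] [Algebra K F] [Algebra R F]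
    [IsScalarTower R K F] [IsScalarTower R A F] [IsFractionRing R K] [IsFractionRing A F] [Algebra.IsSeparable K F]
    [IsIntegralClosure A R F]
    (b : Module.Basis ι R A) (r : A) (hr : r ∈ differentIdeal R A) :
    ∃ g : ι → A, ∀ a : A, r * a = ∑ i, algebraMap R A (Algebra.trace R A (a * b i)) * g i := by
  have hloc : IsLocalization (Algebra.algebraMapSubmonoid A R⁰) F :=
    IsIntegralClosure.isLocalization R K F A
  have : FiniteDimensional K F := .of_isLocalization R A R⁰
  have : Module.Free R A := Module.Free.of_basis b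
  let bK : Module.Basis ι K F := b.localizationLocalization K R⁰ F
  have hbK : ∀ i, bK i = algebraMap A F (b i) := fun i =>
    Module.Basis.localizationLocalization_apply K R⁰ F b i
  have htr : ∀ x : A, Algebra.trace K F (algebraMap A F x) = algebraMap R K (Algebra.trace R A x) :=
    fun x => Algebra.trace_localization R R⁰ x
  have hd : ∀ i, bK.traceDual i ∈ Submodule.traceDual R K (1 : Submodule A F) := by
    intro i
    rw [Submodule.mem_traceDual]
    intro a ha
    obtain ⟨a', rfl⟩ := Submodule.mem_one.1 ha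
    rw [← b.sum_repr a', map_sum, map_sum]
    refine Subring.sum_mem _ fun j _ => ?_
    have e1 : algebraMap A F (b.repr a' j • b j) = algebraMap R K (b.repr a' j) • bK j := by
      rw [Algebra.smul_def, map_mul, hbK, Algebra.smul_def, ← IsScalarTower.algebraMap_apply R A F,
        ← IsScalarTower.algebraMap_apply R K F]
    rw [e1, map_smul, Algebra.traceForm_apply, Module.Basis.trace_traceDual_mul]
    rw [smul_eq_mul]
    refine Subring.mul_mem _ ⟨_, rfl⟩ ?_
    split_ifs
    · exact Subring.one_mem _
    · exact Subring.zero_mem _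
  have hr' : algebraMap A F r ∈ (1 / Submodule.traceDual R K (1 : Submodule A F) : Submodule A F) := by
    rw [← coeSubmodule_differentIdeal R K A]
    exact ⟨r, hr, rfl⟩
  rw [Submodule.mem_div_iff_forall_mul_mem] at hr'
  choose g hg using fun i => Submodule.mem_one.1 (hr' _ (hd i))
  refine ⟨g, fun a => ?_⟩
  apply FaithfulSMul.algebraMap_injective A F
  rw [map_mul, map_sum]
  have h1 : algebraMap A F a = ∑ i, algebraMap R K (Algebra.trace R A (a * b i)) • bK.traceDual i := by
    conv_lhs => rw [← bK.traceDual.sum_repr (algebraMap A F a)]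
    refine Finset.sum_congr rfl fun i _ => ?_
    rw [Module.Basis.traceDual_repr_apply, Algebra.traceForm_apply, hbK, ← map_mul, htr]
  rw [h1, Finset.mul_sum]
  refine Finset.sum_congr rfl fun i _ => ?_
  rw [map_mul (algebraMap A F), hg, Algebra.smul_def, ← IsScalarTower.algebraMap_apply R K F,
    IsScalarTower.algebraMap_apply R A F]
  ring

end dual

section spec

variable {R A ι : Type*} [CommRing R] [CommRing A] [Algebra R A] [Fintype ι] [DecidableEq ι]

omit [DecidableEq ι] in
theorem trace_tmul (K : Type*) [CommRing K] [Algebra R K] (b : Module.Basis ι R A) (a : A) :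
    Algebra.trace K (K ⊗[R] A) (1 ⊗ₜ a) = algebraMap R K (Algebra.trace R A a) := by
  have : Module.Free R A := Module.Free.of_basis b
  have : Module.Finite R A := Module.Finite.of_basis b
  rw [Algebra.trace_apply, Algebra.trace_apply, ← LinearMap.trace_baseChange]
  congr 1
  ext x
  simp

/-- the specialised trace-dual identity in the fibre algebra -/
theorem base_identity (K : Type*) [CommRing K] [Algebra R K] (b : Module.Basis ι R A) (r : A) (g : ι → A)
    (h : ∀ a : A, r * a = ∑ i, algebraMap R A (Algebra.trace R A (a * b i)) * g i) (β : K ⊗[R] A) :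
    (1 ⊗ₜ r) * β = ∑ i, Algebra.trace K (K ⊗[R] A) (β * (1 ⊗ₜ b i)) • ((1 : K) ⊗ₜ[R] g i) := by
  induction β using TensorProduct.induction_on with
  | zero => simp
  | tmul c a =>
    have e0 : c ⊗ₜ[R] a = c • ((1 : K) ⊗ₜ[R] a) := by rw [TensorProduct.smul_tmul', smul_eq_mul, mul_one]
    have e1 : (1 : K) ⊗ₜ[R] (r * a) = ∑ i, algebraMap R K (Algebra.trace R A (a * b i)) • ((1 : K) ⊗ₜ[R] g i) := by
      rw [h, TensorProduct.tmul_sum]
      refine Finset.sum_congr rfl fun i _ => ?_
      rw [← Algebra.smul_def, TensorProduct.tmul_smul, algebraMap_smul]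
    rw [e0, mul_smul_comm, Algebra.TensorProduct.tmul_mul_tmul, one_mul, e1, Finset.smul_sum]
    refine Finset.sum_congr rfl fun i _ => ?_
    rw [smul_mul_assoc, map_smul, Algebra.TensorProduct.tmul_mul_tmul, one_mul, trace_tmul K b, smul_assoc]
  | add x y hx hy =>
    rw [mul_add, hx, hy, ← Finset.sum_add_distrib]
    refine Finset.sum_congr rfl fun i _ => ?_
    rw [add_mul, map_add, add_smul]

/-- If `x` kills the kernel of a surjection onto `L`, its trace is the trace of its image. -/
theorem trace_of_kill {K B L : Type*} [Field K] [CommRing B] [Algebra K B] [Module.Finite K B] [Field L] [Algebra K L]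
    [FiniteDimensional K L] (Φ : B →ₐ[K] L) (hΦ : Function.Surjective Φ) (x : B) (hx : ∀ m, Φ m = 0 → x * m = 0) :
    Algebra.trace K B x = Algebra.trace K L (Φ x) := by
  obtain ⟨s, hs⟩ := Φ.toLinearMap.exists_rightInverse_of_surjective (LinearMap.range_eq_top.2 hΦ)
  have hs' : ∀ l, Φ (s l) = l := fun l => by
    have := LinearMap.congr_fun hs l
    simpa using this
  let ψ : L →ₗ[K] B := (Algebra.lmul K B x) ∘ₗ s
  have e1 : Algebra.lmul K B x = ψ ∘ₗ Φ.toLinearMap := by
    ext m
    show x * m = x * s (Φ m)
    have h0 : Φ (m - s (Φ m)) = 0 := by rw [map_sub, hs', sub_self]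
    have h1 := hx _ h0
    rw [mul_sub, sub_eq_zero] at h1
    exact h1
  have e2 : Φ.toLinearMap ∘ₗ ψ = Algebra.lmul K L (Φ x) := by
    ext l
    show Φ (x * s l) = Φ x * l
    rw [map_mul, hs']
  rw [Algebra.trace_apply, e1, LinearMap.trace_comp_comm', e2, Algebra.trace_apply]

/-- **The specialised identity.** -/
theorem spec {K L : Type*} [Field K] [Algebra R K] [Field L] [Algebra K L] [FiniteDimensional K L]
    [Algebra.IsSeparable K L] (b : Module.Basis ι R A) (r : A) (g : ι → A)
    (h : ∀ a : A, r * a = ∑ i, algebraMap R A (Algebra.trace R A (a * b i)) * g i)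
    (hdisc : algebraMap R K (Algebra.discr R b) ≠ 0)
    (φ : A →+* L) (hφ : ∀ x : R, φ (algebraMap R A x) = algebraMap K L (algebraMap R K x))
    (hgen : Algebra.adjoin K (Set.range φ) = ⊤) (z : L) :
    φ r * z = ∑ i, algebraMap K L (Algebra.trace K L (z * φ (b i))) * φ (g i) := by
  have hfree : Module.Free R A := Module.Free.of_basis b
  have hfin : Module.Finite R A := Module.Finite.of_basis b
  let iRL : Algebra R L := ((algebraMap K L).comp (algebraMap R K)).toAlgebra
  have : IsScalarTower R K L := IsScalarTower.of_algebraMap_eq fun _ => rfl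
  let φ' : A →ₐ[R] L := { φ with commutes' := hφ }
  let Φ : K ⊗[R] A →ₐ[K] L := Algebra.TensorProduct.lift (Algebra.ofId K L) φ' (fun _ _ => Commute.all _ _)
  have hΦ1 : ∀ a : A, Φ (1 ⊗ₜ a) = φ a := fun a => by
    show Algebra.TensorProduct.lift (Algebra.ofId K L) φ' (fun _ _ => Commute.all _ _) ((1 : K) ⊗ₜ[R] a) = φ a
    rw [Algebra.TensorProduct.lift_tmul, map_one, one_mul]
    rfl
  have hsurj : Function.Surjective Φ := by
    rw [← AlgHom.range_eq_top, eq_top_iff, ← hgen]
    refine Algebra.adjoin_le ?_
    rintro _ ⟨a, rfl⟩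
    exact ⟨1 ⊗ₜ a, hΦ1 a⟩
  -- nondegeneracy
  have hnd : (Algebra.traceForm K (K ⊗[R] A)).Nondegenerate := by
    let bK : Module.Basis ι K (K ⊗[R] A) := Algebra.TensorProduct.basis K b
    refine LinearMap.BilinForm.nondegenerate_of_det_ne_zero _ bK ?_
    have e1 : LinearMap.BilinForm.toMatrix bK (Algebra.traceForm K (K ⊗[R] A)) =
        (Algebra.traceMatrix R b).map (algebraMap R K) := by
      ext i j
      rw [LinearMap.BilinForm.toMatrix_apply, Matrix.map_apply, Algebra.traceMatrix_apply, Algebra.traceForm_apply,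
        Algebra.traceForm_apply, Algebra.TensorProduct.basis_apply, Algebra.TensorProduct.basis_apply,
        Algebra.TensorProduct.tmul_mul_tmul, one_mul, trace_tmul K b]
    rw [e1]
    have e2 : ((Algebra.traceMatrix R b).map (algebraMap R K)).det = algebraMap R K (Algebra.discr R b) := by
      rw [Algebra.discr_def, RingHom.map_det]
      rfl
    rw [e2]
    exact hdisc
  let f : Module.Dual K (K ⊗[R] A) := (Algebra.trace K L) ∘ₗ (LinearMap.mulLeft K z) ∘ₗ Φ.toLinearMap
  obtain ⟨a, ha⟩ := (LinearMap.BilinForm.toDual _ hnd).surjective f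
  have ha' : ∀ β, Algebra.trace K (K ⊗[R] A) (a * β) = Algebra.trace K L (z * Φ β) := fun β => by
    have h1 := LinearMap.congr_fun ha β
    rw [LinearMap.BilinForm.toDual_def, Algebra.traceForm_apply] at h1
    exact h1
  have hkill : ∀ m, Φ m = 0 → a * m = 0 := by
    intro m hm
    refine hnd.1 _ fun β => ?_
    rw [Algebra.traceForm_apply, mul_assoc, ha', map_mul Φ, hm, zero_mul, mul_zero, map_zero]
  have hΦa : Φ a = z := by
    have h1 : ∀ l : L, Algebra.traceForm K L (Φ a - z) l = 0 := by
      intro l
      obtain ⟨β, rfl⟩ := hsurj l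
      have h2 : Algebra.trace K (K ⊗[R] A) (a * β) = Algebra.trace K L (Φ (a * β)) :=
        trace_of_kill Φ hsurj (a * β) fun m hm => by rw [mul_right_comm, hkill m hm, zero_mul]
      rw [Algebra.traceForm_apply, sub_mul, map_sub, sub_eq_zero, ← ha' β, h2, map_mul Φ]
    exact sub_eq_zero.1 ((traceForm_nondegenerate K L).1 _ h1)
  have h3 := congrArg Φ (base_identity K b r g h a)
  rw [map_mul, hΦ1, hΦa, map_sum] at h3
  rw [h3]
  refine Finset.sum_congr rfl fun i _ => ?_
  rw [map_smul, hΦ1, ha', hΦ1, Algebra.smul_def]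

end spec

end Pool.Agent.KS6_8.VJ
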