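import Mathlib
import Pool.Agent.KS6_8.VJ.TD

/-!
Local consequences of the specialised trace-dual identity.
-/

set_option autoImplicit false

namespace Pool.Agent.KS6_8.VJ

open nonZeroDivisors NumberField IsDedekindDomain Polynomial

section

variable {K L : Type} [Field K] [NumberField K] [Field L] [NumberField L] [Algebra K L]

/-- an element of `K` which is integral at the prime `v` of `L` has a denominator prime to `v` -/
theorem exists_den (v : HeightOneSpectrum (𝓞 L)) (x : K) (hx : v.valuation L (algebraMap K L x) ≤ 1) :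
    ∃ s : 𝓞 K, algebraMap (𝓞 K) (𝓞 L) s ∉ v.asIdeal ∧ ∃ n : 𝓞 K, algebraMap (𝓞 K) K s * x = algebraMap (𝓞 K) K n := by
  obtain ⟨n, d, h | h⟩ := (v.under (𝓞 K)).exists_primeCompl_mul_eq_or_mul_eq (K := K) x
  · refine ⟨d, fun hd => d.2 hd, n, ?_⟩
    rw [mul_comm]
    exact h
  · refine ⟨n, fun hn => ?_, d, by rw [mul_comm]; exact h⟩
    have h1 : v.valuation L (algebraMap K L x) * v.valuation L (algebraMap (𝓞 L) L (algebraMap (𝓞 K) (𝓞 L) n)) = 1 := by
      have h2 : algebraMap (𝓞 L) L (algebraMap (𝓞 K) (𝓞 L) n) = algebraMap K L (algebraMap (𝓞 K) K n) := by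
        rw [← IsScalarTower.algebraMap_apply (𝓞 K) (𝓞 L) L, ← IsScalarTower.algebraMap_apply (𝓞 K) K L]
      have h3 : algebraMap (𝓞 L) L (algebraMap (𝓞 K) (𝓞 L) (d : 𝓞 K)) = algebraMap K L (algebraMap (𝓞 K) K d) := by
        rw [← IsScalarTower.algebraMap_apply (𝓞 K) (𝓞 L) L, ← IsScalarTower.algebraMap_apply (𝓞 K) K L]
      rw [h2, ← map_mul, ← map_mul, h, ← h3]
      exact (HeightOneSpectrum.valuation_eq_one_iff_notMem v).2 fun hd => d.2 hd
    have h4 : v.valuation L (algebraMap (𝓞 L) L (algebraMap (𝓞 K) (𝓞 L) n)) < 1 :=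
      (HeightOneSpectrum.valuation_lt_one_iff_mem v _).2 hn
    have h5 : v.valuation L (algebraMap K L x) * v.valuation L (algebraMap (𝓞 L) L (algebraMap (𝓞 K) (𝓞 L) n)) < 1 :=
      mul_lt_one_of_nonneg_of_lt_one_right hx zero_le' h4
    exact h5.ne h1

/-- the same for finitely many elements -/
theorem exists_den_fin (v : HeightOneSpectrum (𝓞 L)) {ι : Type*} (t : Finset ι) (x : ι → K)
    (hx : ∀ i ∈ t, v.valuation L (algebraMap K L (x i)) ≤ 1) :
    ∃ s : 𝓞 K, algebraMap (𝓞 K) (𝓞 L) s ∉ v.asIdeal ∧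
      ∀ i ∈ t, ∃ n : 𝓞 K, algebraMap (𝓞 K) K s * x i = algebraMap (𝓞 K) K n := by
  classical
  induction t using Finset.induction_on with
  | empty => exact ⟨1, by rw [map_one]; exact (Ideal.ne_top_iff_one _).1 v.isPrime.ne_top, by simp⟩
  | insert a t ha ih =>
    obtain ⟨s, hs, h⟩ := ih fun i hi => hx i (Finset.mem_insert_of_mem hi)
    obtain ⟨s', hs', n', hn'⟩ := exists_den v (x a) (hx a (Finset.mem_insert_self a t))
    refine ⟨s * s', ?_, fun i hi => ?_⟩
    · rw [map_mul]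
      exact fun hmem => (v.isPrime.mem_or_mem hmem).elim hs hs'
    · rcases Finset.mem_insert.1 hi with rfl | hi
      · exact ⟨s * n', by rw [map_mul, map_mul, ← hn', mul_assoc]⟩
      · obtain ⟨n, hn⟩ := h i hi
        exact ⟨s' * n, by rw [map_mul, map_mul, ← hn]; ring⟩

/-- A root `x` in `L` of a monic polynomial over `K` with coefficients integral at `v` is integral after
multiplication by some element of `𝓞 K` prime to `v`. -/
theorem exists_den_root (v : HeightOneSpectrum (𝓞 L)) (p : K[X]) (hp : p.Monic)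
    (hc : ∀ i, v.valuation L (algebraMap K L (p.coeff i)) ≤ 1) (x : L) (hx : aeval x p = 0) :
    ∃ s : 𝓞 K, algebraMap (𝓞 K) (𝓞 L) s ∉ v.asIdeal ∧ ∃ a : 𝓞 L, (a : L) = algebraMap K L (algebraMap (𝓞 K) K s) * x := by
  obtain ⟨s, hs, h⟩ := exists_den_fin v (Finset.range (p.natDegree + 1)) p.coeff fun i _ => hc i
  refine ⟨s, hs, ?_⟩
  have hq : (p.scaleRoots (algebraMap (𝓞 K) K s)) ∈ Polynomial.lifts (algebraMap (𝓞 K) K) := by
    rw [Polynomial.lifts_iff_coeff_lifts]
    intro i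
    rw [Polynomial.coeff_scaleRoots]
    rcases lt_trichotomy i p.natDegree with hi | hi | hi
    · obtain ⟨n, hn⟩ := h i (Finset.mem_range.2 (by omega))
      refine ⟨n * s ^ (p.natDegree - i - 1), ?_⟩
      rw [map_mul, map_pow, ← hn]
      have e1 : p.natDegree - i = (p.natDegree - i - 1) + 1 := by omega
      conv_rhs => rw [e1, pow_succ]
      ring
    · refine ⟨1, ?_⟩
      rw [hi, tsub_self, pow_zero, mul_one, map_one]
      exact hp.coeff_natDegree.symm
    · refine ⟨0, ?_⟩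
      rw [Polynomial.coeff_eq_zero_of_natDegree_lt hi, zero_mul, map_zero]
  obtain ⟨q, hq1, -, hq3⟩ := Polynomial.lifts_and_natDegree_eq_and_monic hq ((Polynomial.monic_scaleRoots_iff _).2 hp)
  have hint : IsIntegral (𝓞 K) (algebraMap K L (algebraMap (𝓞 K) K s) * x) := by
    refine ⟨q, hq3, ?_⟩
    have h1 : aeval (algebraMap K L (algebraMap (𝓞 K) K s) * x) (p.scaleRoots (algebraMap (𝓞 K) K s)) = 0 :=
      Polynomial.scaleRoots_aeval_eq_zero hx
    rw [← hq1, aeval_map_algebraMap] at h1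
    exact h1
  have hint' : IsIntegral ℤ (algebraMap K L (algebraMap (𝓞 K) K s) * x) :=
    isIntegral_trans _ hint
  exact ⟨⟨_, hint'⟩, rfl⟩

/-- The local conclusion. -/
theorem val_le (v : HeightOneSpectrum (𝓞 L)) {ι : Type*} [Fintype ι] (ρ : L) (x y : ι → L)
    (hid : ∀ z : L, ρ * z = ∑ i, algebraMap K L (Algebra.trace K L (z * x i)) * y i)
    (s : 𝓞 K) (hs : algebraMap (𝓞 K) (𝓞 L) s ∉ v.asIdeal)
    (hx : ∀ i, ∃ a : 𝓞 L, (a : L) = algebraMap K L (algebraMap (𝓞 K) K s) * x i)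
    (s' : 𝓞 L) (hs' : s' ∉ v.asIdeal) (hy : ∀ i, ∃ c : 𝓞 L, (c : L) = (s' : L) * y i)
    (m : ℕ) (hm : v.asIdeal ^ m ∣ differentIdeal (𝓞 K) (𝓞 L)) :
    v.valuation L ρ ≤ WithZero.exp (-(m : ℤ)) := by
  choose a ha using hx
  choose c hc using hy
  have key : ∀ z ∈ Submodule.traceDual (𝓞 K) K (1 : Submodule (𝓞 L) L),
      (algebraMap K L (algebraMap (𝓞 K) K s) * (s' : L) * ρ) * z ∈ (1 : Submodule (𝓞 L) L) := by
    intro z hz
    rw [Submodule.mem_traceDual] at hz
    have h1 : ∀ i, ∃ n : 𝓞 K, algebraMap (𝓞 K) K n = Algebra.trace K L (z * (a i : L)) := by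
      intro i
      obtain ⟨n, hn⟩ := hz (a i : L) (Submodule.mem_one.2 ⟨a i, rfl⟩)
      exact ⟨n, hn⟩
    choose n hn using h1
    rw [Submodule.mem_one]
    refine ⟨∑ i, algebraMap (𝓞 K) (𝓞 L) (n i) * c i, ?_⟩
    rw [map_sum]
    have e1 : (algebraMap K L (algebraMap (𝓞 K) K s) * (s' : L) * ρ) * z =
        ∑ i, algebraMap K L (algebraMap (𝓞 K) K s) * algebraMap K L (Algebra.trace K L (z * x i)) * ((s' : L) * y i) := by
      rw [mul_assoc, hid, Finset.mul_sum]
      refine Finset.sum_congr rfl fun i _ => ?_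
      ring
    rw [e1]
    refine Finset.sum_congr rfl fun i _ => ?_
    rw [map_mul, ← hc]
    congr 1
    rw [← IsScalarTower.algebraMap_apply (𝓞 K) (𝓞 L) L, IsScalarTower.algebraMap_apply (𝓞 K) K L, hn, ha,
      ← map_mul]
    congr 1
    rw [mul_left_comm, ← Algebra.smul_def, map_smul, smul_eq_mul]
  have h2 : algebraMap K L (algebraMap (𝓞 K) K s) * (s' : L) * ρ ∈
      (1 / Submodule.traceDual (𝓞 K) K (1 : Submodule (𝓞 L) L) : Submodule (𝓞 L) L) := by
    rw [Submodule.mem_div_iff_forall_mul_mem]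
    exact key
  rw [← coeSubmodule_differentIdeal (𝓞 K) K (𝓞 L)] at h2
  obtain ⟨d, hd, hd'⟩ := h2
  have hd'' : (d : L) = algebraMap K L (algebraMap (𝓞 K) K s) * (s' : L) * ρ := hd'
  have h3 : d ∈ v.asIdeal ^ m := (Ideal.dvd_iff_le.1 hm) hd
  have h4 : v.valuation L (d : L) ≤ WithZero.exp (-(m : ℤ)) := by
    have h5 := (v.intValuation_le_pow_iff_mem d m).2 h3
    rw [HeightOneSpectrum.valuation_of_algebraMap]
    exact h5
  rw [hd'', map_mul, map_mul] at h4
  have h6 : v.valuation L (algebraMap K L (algebraMap (𝓞 K) K s)) = 1 := by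
    have e2 : algebraMap K L (algebraMap (𝓞 K) K s) = algebraMap (𝓞 L) L (algebraMap (𝓞 K) (𝓞 L) s) := by
      rw [← IsScalarTower.algebraMap_apply (𝓞 K) (𝓞 L) L, ← IsScalarTower.algebraMap_apply (𝓞 K) K L]
    rw [e2]
    exact (HeightOneSpectrum.valuation_eq_one_iff_notMem v).2 hs
  have h7 : v.valuation L (s' : L) = 1 := (HeightOneSpectrum.valuation_eq_one_iff_notMem v).2 hs'
  rw [h6, h7, one_mul, one_mul] at h4
  exact h4

end

end Pool.Agent.KS6_8.VJ
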