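import Mathlib
import Pool.Agent.KS6_8.VJ.VAL

/-!
The specialised different contains the different of the residue field, outside finitely many primes.
-/

set_option autoImplicit false

namespace Pool.Agent.KS6_8.VJ

open nonZeroDivisors NumberField IsDedekindDomain Polynomial

/-- the elements of `R` have `v`-integral values at the points with `v (t) = 1`, for almost all primes `v` -/
def IntAt {R : Type} [CommRing R] (t c : R) (M : ℕ) : Prop :=
  ∀ (L : Type) [Field L] [NumberField L] (ev : R →+* L) (v : HeightOneSpectrum (𝓞 L)),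
    (M : 𝓞 L) ∉ v.asIdeal → v.valuation L (ev t) = 1 → v.valuation L (ev c) ≤ 1

theorem IntAt.mono {R : Type} [CommRing R] {t c : R} {M N : ℕ} (h : IntAt t c M) (hMN : M ∣ N) : IntAt t c N := by
  intro L _ _ ev v hv ht
  refine h L ev v (fun hM => hv ?_) ht
  obtain ⟨d, rfl⟩ := hMN
  rw [Nat.cast_mul]
  exact Ideal.mul_mem_right _ _ hM

section

variable {R A : Type} [CommRing R] [CommRing A] [Algebra R A]

/-- the same for the values of the elements of `A`, with a denominator from the small field -/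
theorem exists_M (t : R) (ht : ∀ c : R, ∃ M : ℕ, 0 < M ∧ IntAt t c M) (a : A) (ha : IsIntegral R a) :
    ∃ M : ℕ, 0 < M ∧ ∀ (K L : Type) [Field K] [NumberField K] [Field L] [NumberField L] [Algebra K L]
      (ev : R →+* K) (φ : A →+* L), (∀ x, φ (algebraMap R A x) = algebraMap K L (ev x)) →
      ∀ v : HeightOneSpectrum (𝓞 L), (M : 𝓞 L) ∉ v.asIdeal → v.valuation L (algebraMap K L (ev t)) = 1 →
      ∃ s : 𝓞 K, algebraMap (𝓞 K) (𝓞 L) s ∉ v.asIdeal ∧
        ∃ c : 𝓞 L, (c : L) = algebraMap K L (algebraMap (𝓞 K) K s) * φ a := by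
  obtain ⟨p, hp, hpa⟩ := ha
  choose Mc hMc hMi using ht
  refine ⟨∏ i ∈ Finset.range (p.natDegree + 1), Mc (p.coeff i), Finset.prod_pos fun i _ => hMc _, ?_⟩
  intro K L _ _ _ _ _ ev φ hφ v hv hvt
  refine exists_den_root v (p.map ev) (hp.map ev) (fun i => ?_) (φ a) ?_
  · rw [Polynomial.coeff_map]
    by_cases hi : i < p.natDegree + 1
    · exact ((hMi (p.coeff i)).mono (Finset.dvd_prod_of_mem (fun i => Mc (p.coeff i)) (Finset.mem_range.2 hi))) L
        ((algebraMap K L).comp ev) v hv hvt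
    · rw [Polynomial.coeff_eq_zero_of_natDegree_lt (by omega), map_zero, map_zero, map_zero]
      exact zero_le
  · rw [aeval_def, eval₂_map]
    have e1 : (algebraMap K L).comp ev = φ.comp (algebraMap R A) := by
      ext x
      exact (hφ x).symm
    rw [e1, ← Polynomial.hom_eval₂, hpa, map_zero]

attribute [local instance] FractionRing.liftAlgebra FractionRing.isScalarTower_liftAlgebra

/-- **M2.** The values of the elements of the different at the points of the curve are in the different of the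
residue field. -/
theorem m2 [IsDomain R] [IsPrincipalIdealRing R] [CharZero R] [IsDedekindDomain A] [Module.IsTorsionFree R A]
    [Module.Finite R A] (t : R) (ht : ∀ c : R, ∃ M : ℕ, 0 < M ∧ IntAt t c M) :
    ∃ δ : R, δ ≠ 0 ∧ ∀ r ∈ differentIdeal R A, ∃ M : ℕ, 0 < M ∧
      ∀ (K L : Type) [Field K] [NumberField K] [Field L] [NumberField L] [Algebra K L]
        (ev : R →+* K) (φ : A →+* L), (∀ x, φ (algebraMap R A x) = algebraMap K L (ev x)) → ev δ ≠ 0 →
        Algebra.adjoin K (Set.range φ) = ⊤ →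
        ∀ v : HeightOneSpectrum (𝓞 L), (M : 𝓞 L) ∉ v.asIdeal → v.valuation L (algebraMap K L (ev t)) = 1 →
        ∀ m : ℕ, v.asIdeal ^ m ∣ differentIdeal (𝓞 K) (𝓞 L) → v.valuation L (φ r) ≤ WithZero.exp (-(m : ℤ)) := by
  classical
  let b := Module.Free.chooseBasis R A
  have hsep : Algebra.IsSeparable (FractionRing R) (FractionRing A) := by
    have : CharZero (FractionRing R) := IsFractionRing.charZero R
    have : FiniteDimensional (FractionRing R) (FractionRing A) := .of_isLocalization R A R⁰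
    infer_instance
  refine ⟨Algebra.discr R b, ?_, fun r hr => ?_⟩
  · have hloc : IsLocalization (Algebra.algebraMapSubmonoid A R⁰) (FractionRing A) :=
      IsIntegralClosure.isLocalization R (FractionRing R) (FractionRing A) A
    have : FiniteDimensional (FractionRing R) (FractionRing A) := .of_isLocalization R A R⁰
    intro h0
    have h1 := Algebra.discr_localizationLocalization R (Rₘ := FractionRing R) R⁰ (FractionRing A) b
    rw [h0, map_zero] at h1
    exact Algebra.discr_not_zero_of_basis (FractionRing R) _ h1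
  obtain ⟨g, hg⟩ := exists_dual (FractionRing R) (FractionRing A) b r hr
  have hintA : ∀ a : A, IsIntegral R a := fun a => Algebra.IsIntegral.isIntegral a
  choose Ma hMa hMb using fun a : A => exists_M t ht a (hintA a)
  refine ⟨(∏ i, Ma (b i)) * ∏ i, Ma (g i), Nat.mul_pos (Finset.prod_pos fun i _ => hMa _) (Finset.prod_pos fun i _ => hMa _), ?_⟩
  intro K L _ _ _ _ _ ev φ hφ hδ hgen v hv hvt m hm
  let iRK : Algebra R K := ev.toAlgebra
  have hv1 : ∀ i, (Ma (b i) : 𝓞 L) ∉ v.asIdeal := fun i h => hv (by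
    obtain ⟨d, hd⟩ := Finset.dvd_prod_of_mem (fun i => Ma (b i)) (Finset.mem_univ i)
    rw [hd, Nat.cast_mul, Nat.cast_mul, mul_assoc]
    exact Ideal.mul_mem_right _ _ h)
  have hv2 : ∀ i, (Ma (g i) : 𝓞 L) ∉ v.asIdeal := fun i h => hv (by
    obtain ⟨d, hd⟩ := Finset.dvd_prod_of_mem (fun i => Ma (g i)) (Finset.mem_univ i)
    rw [hd, Nat.cast_mul, Nat.cast_mul]
    exact Ideal.mul_mem_left _ _ (Ideal.mul_mem_right _ _ h))
  choose s1 hs1 a1 ha1 using fun i => hMb (b i) K L ev φ hφ v (hv1 i) hvt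
  choose s2 hs2 a2 ha2 using fun i => hMb (g i) K L ev φ hφ v (hv2 i) hvt
  refine val_le v (φ r) (fun i => φ (b i)) (fun i => φ (g i))
    (spec b r g hg hδ φ hφ hgen) (∏ i, s1 i) ?_ (fun i => ?_) (algebraMap (𝓞 K) (𝓞 L) (∏ i, s2 i)) ?_ (fun i => ?_) m hm
  · rw [map_prod]
    exact fun h => by
      obtain ⟨i, -, hi⟩ := (v.isPrime.prod_mem_iff).1 h
      exact hs1 i hi
  · refine ⟨algebraMap (𝓞 K) (𝓞 L) (∏ j ∈ Finset.univ.erase i, s1 j) * a1 i, ?_⟩
    show algebraMap (𝓞 L) L _ = _
    rw [map_mul]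
    have e0 : algebraMap (𝓞 L) L (a1 i) = algebraMap K L (algebraMap (𝓞 K) K (s1 i)) * φ (b i) := ha1 i
    rw [e0, ← Finset.mul_prod_erase _ _ (Finset.mem_univ i), map_mul, map_mul,
      ← IsScalarTower.algebraMap_apply (𝓞 K) (𝓞 L) L, IsScalarTower.algebraMap_apply (𝓞 K) K L]
    ring
  · rw [map_prod]
    exact fun h => by
      obtain ⟨i, -, hi⟩ := (v.isPrime.prod_mem_iff).1 h
      exact hs2 i hi
  · refine ⟨algebraMap (𝓞 K) (𝓞 L) (∏ j ∈ Finset.univ.erase i, s2 j) * a2 i, ?_⟩
    have e1 : ((algebraMap (𝓞 K) (𝓞 L) (∏ i, s2 i) : 𝓞 L) : L) =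
        algebraMap K L (algebraMap (𝓞 K) K (∏ i, s2 i)) := by
      show algebraMap (𝓞 L) L _ = _
      rw [← IsScalarTower.algebraMap_apply (𝓞 K) (𝓞 L) L, IsScalarTower.algebraMap_apply (𝓞 K) K L]
    have e0 : algebraMap (𝓞 L) L (a2 i) = algebraMap K L (algebraMap (𝓞 K) K (s2 i)) * φ (g i) := ha2 i
    rw [e1]
    show algebraMap (𝓞 L) L _ = _
    rw [map_mul, e0, ← Finset.mul_prod_erase _ _ (Finset.mem_univ i), map_mul, map_mul,
      ← IsScalarTower.algebraMap_apply (𝓞 K) (𝓞 L) L, IsScalarTower.algebraMap_apply (𝓞 K) K L]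
    ring

end

end Pool.Agent.KS6_8.VJ
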