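import Mathlib

/-!
`T`-units of the rational numbers which are close to `1` at a prime `ℓ` not in `T` (pigeonhole principle).
-/

set_option autoImplicit false

namespace Pool.Agent.KS6_8.VJ

open Finset Real

/-- the product of the `p ^ (a p)` -/
def prodPow (T : Finset ℕ) (a : ℕ → ℕ) : ℕ := ∏ p ∈ T, p ^ a p

theorem prodPow_pos {T : Finset ℕ} (hT : ∀ p ∈ T, p.Prime) (a : ℕ → ℕ) : 0 < prodPow T a :=
  Finset.prod_pos fun p hp => pow_pos (hT p hp).pos _

theorem mem_of_dvd_prodPow {T : Finset ℕ} (hT : ∀ p ∈ T, p.Prime) (a : ℕ → ℕ) {q : ℕ} (hq : q.Prime)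
    (h : q ∣ prodPow T a) : q ∈ T := by
  obtain ⟨p, hp, hpq⟩ := (Prime.dvd_finsetProd_iff hq.prime _).1 h
  have := (Nat.prime_dvd_prime_iff_eq hq (hT p hp)).1 (hq.dvd_of_dvd_pow hpq)
  rw [this]
  exact hp

theorem factorization_prodPow {T : Finset ℕ} (hT : ∀ p ∈ T, p.Prime) (a : ℕ → ℕ) {q : ℕ} (hq : q ∈ T) :
    (prodPow T a).factorization q = a q := by
  unfold prodPow
  rw [Nat.factorization_prod fun p hp => pow_ne_zero _ (hT p hp).ne_zero, Finset.sum_apply']
  rw [Finset.sum_eq_single q]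
  · rw [Nat.factorization_pow, Finsupp.smul_apply, (hT q hq).factorization_self, smul_eq_mul, mul_one]
  · intro p hp hpq
    rw [Nat.factorization_pow, Finsupp.smul_apply, Nat.Prime.factorization (hT p hp),
      Finsupp.single_eq_of_ne (fun h => hpq h.symm), smul_zero]
  · exact fun h => absurd hq h

theorem log_prodPow_le {T : Finset ℕ} (hT : ∀ p ∈ T, p.Prime) (a : ℕ → ℕ) (M : ℕ) (ha : ∀ p ∈ T, a p ≤ M) :
    Real.log (prodPow T a) ≤ M * ∑ p ∈ T, Real.log p := by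
  unfold prodPow
  rw [Nat.cast_prod, Real.log_prod fun p hp => by
    have := (hT p hp).pos
    positivity, Finset.mul_sum]
  refine Finset.sum_le_sum fun p hp => ?_
  rw [Nat.cast_pow, Real.log_pow]
  exact mul_le_mul_of_nonneg_right (by exact_mod_cast ha p hp) (Real.log_natCast_nonneg p)

/-- **M1.** -/
theorem m1 {ℓ : ℕ} (hℓ : ℓ.Prime) {T : Finset ℕ} (hT : ∀ p ∈ T, p.Prime) (hℓT : ℓ ∉ T) (hT0 : T.Nonempty) :
    ∃ c : ℝ, ∀ H : ℝ, ∃ A B m : ℕ, 0 < A ∧ 0 < B ∧ A ≠ B ∧ A.Coprime B ∧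
      (∀ p : ℕ, p.Prime → p ∣ A * B → p ∈ T) ∧ ((ℓ : ℤ) ^ m ∣ (A : ℤ) - B) ∧
      H < Real.log (max A B : ℕ) ∧ 1 ≤ Real.log (max A B : ℕ) ∧
      (T.card : ℝ) * Real.log (Real.log (max A B : ℕ)) ≤ m * Real.log ℓ + c := by
  classical
  set sg : ℝ := ∑ p ∈ T, Real.log p with hsg
  have hsg1 : 0 < sg := Finset.sum_pos (fun p hp => Real.log_pos (by exact_mod_cast (hT p hp).one_lt)) hT0
  have hℓ1 : 0 < Real.log ℓ := Real.log_pos (by exact_mod_cast hℓ.one_lt)
  refine ⟨Real.log ℓ + T.card * Real.log sg, fun H => ?_⟩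
  -- choose the size of the exponents
  obtain ⟨m0, hm0⟩ := exists_nat_gt ((max H 1) / Real.log ℓ)
  have hm0' : max H 1 < m0 * Real.log ℓ := (div_lt_iff₀ hℓ1).1 hm0
  set M : ℕ := ℓ ^ m0 + 1 with hM
  have hM2 : 2 ≤ M := by have := Nat.one_le_pow m0 ℓ hℓ.pos; omega
  set s : ℕ := T.card with hs
  have hs1 : 1 ≤ s := Finset.card_pos.2 hT0
  have hMs : 2 ≤ M ^ s := by
    calc 2 ≤ M := hM2
      _ = M ^ 1 := (pow_one M).symm
      _ ≤ M ^ s := Nat.pow_le_pow_right (by omega) hs1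
  set m : ℕ := Nat.log ℓ (M ^ s - 1) with hm
  have hm1 : ℓ ^ m ≤ M ^ s - 1 := Nat.pow_log_le_self ℓ (by omega)
  have hm2 : M ^ s - 1 < ℓ ^ (m + 1) := Nat.lt_pow_succ_log_self hℓ.one_lt _
  have hm3 : m0 ≤ m := by
    refine Nat.le_log_of_pow_le hℓ.one_lt ?_
    have : M ≤ M ^ s := by
      calc M = M ^ 1 := (pow_one M).symm
        _ ≤ M ^ s := Nat.pow_le_pow_right (by omega) hs1
    omega
  have : NeZero (ℓ ^ m) := ⟨pow_ne_zero _ hℓ.ne_zero⟩
  -- pigeonhole
  let f : (T → Fin M) → ZMod (ℓ ^ m) := fun a => (prodPow T (fun p => if h : p ∈ T then (a ⟨p, h⟩ : ℕ) else 0) : ℕ)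
  have hcard : Fintype.card (ZMod (ℓ ^ m)) < Fintype.card (T → Fin M) := by
    rw [ZMod.card, Fintype.card_fun, Fintype.card_fin, Fintype.card_coe, ← hs]
    omega
  obtain ⟨a, b, hab, hfab⟩ := Fintype.exists_ne_map_eq_of_card_lt f hcard
  set a' : ℕ → ℕ := fun p => if h : p ∈ T then (a ⟨p, h⟩ : ℕ) else 0 with ha'
  set b' : ℕ → ℕ := fun p => if h : p ∈ T then (b ⟨p, h⟩ : ℕ) else 0 with hb'
  set A0 := prodPow T a' with hA0
  set B0 := prodPow T b' with hB0
  have hA0p : 0 < A0 := prodPow_pos hT a'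
  have hB0p : 0 < B0 := prodPow_pos hT b'
  have hne : A0 ≠ B0 := by
    intro h
    apply hab
    funext ⟨p, hp⟩
    have h1 : (prodPow T a').factorization p = (prodPow T b').factorization p := by
      rw [← hA0, ← hB0, h]
    rw [factorization_prodPow hT a' hp, factorization_prodPow hT b' hp] at h1
    simp only [ha', hb', hp, dite_true] at h1
    exact Fin.ext h1
  have hdvd0 : (ℓ : ℤ) ^ m ∣ (A0 : ℤ) - B0 := by
    have h1 : ((A0 : ℤ) : ZMod (ℓ ^ m)) = ((B0 : ℤ) : ZMod (ℓ ^ m)) := by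
      rw [Int.cast_natCast, Int.cast_natCast]
      exact hfab
    have h2 := (ZMod.intCast_eq_intCast_iff_dvd_sub _ _ _).1 h1.symm
    rw [Nat.cast_pow] at h2
    exact h2
  -- divide by the greatest common divisor
  set G := Nat.gcd A0 B0 with hG
  have hGp : 0 < G := Nat.gcd_pos_of_pos_left _ hA0p
  obtain ⟨A, hA⟩ := Nat.gcd_dvd_left A0 B0
  obtain ⟨B, hB⟩ := Nat.gcd_dvd_right A0 B0
  rw [← hG] at hA hB
  have hAp : 0 < A := Nat.pos_of_ne_zero fun h => by rw [h, mul_zero] at hA; omega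
  have hBp : 0 < B := Nat.pos_of_ne_zero fun h => by rw [h, mul_zero] at hB; omega
  have hcop : A.Coprime B := by
    have h1 := Nat.coprime_div_gcd_div_gcd (m := A0) (n := B0) hGp
    rwa [← hG, hA, hB, Nat.mul_div_cancel_left _ hGp, Nat.mul_div_cancel_left _ hGp] at h1
  have hAB : A ≠ B := fun h => hne (by rw [hA, hB, h])
  have hℓA : ¬ ℓ ∣ A0 := fun h => hℓT (mem_of_dvd_prodPow hT a' hℓ h)
  have hℓG : ¬ ℓ ∣ G := fun h => hℓA (h.trans (Nat.gcd_dvd_left _ _))
  have hdvd : (ℓ : ℤ) ^ m ∣ (A : ℤ) - B := by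
    have h1 : (A0 : ℤ) - B0 = G * ((A : ℤ) - B) := by
      rw [hA, hB]
      push_cast
      ring
    rw [h1] at hdvd0
    refine IsCoprime.dvd_of_dvd_mul_left (IsCoprime.pow_left ?_) hdvd0
    rw [Nat.isCoprime_iff_coprime]
    exact (Nat.Prime.coprime_iff_not_dvd hℓ).2 hℓG
  -- the height from below
  have hlow : ℓ ^ m ≤ max A B := by
    have h1 : ((ℓ : ℤ) ^ m).natAbs ≤ ((A : ℤ) - B).natAbs := by
      refine Nat.le_of_dvd (Int.natAbs_pos.2 (sub_ne_zero.2 (by exact_mod_cast hAB))) ?_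
      exact Int.natAbs_dvd_natAbs.2 hdvd
    have h2 : ((ℓ : ℤ) ^ m).natAbs = ℓ ^ m := by
      rw [Int.natAbs_pow, Int.natAbs_natCast]
    rw [h2] at h1
    have h3 : ((A : ℤ) - B).natAbs ≤ max A B := by omega
    exact h1.trans h3
  have hlog : (m : ℝ) * Real.log ℓ ≤ Real.log (max A B : ℕ) := by
    rw [← Real.log_pow]
    refine Real.log_le_log (by have := hℓ.pos; positivity) ?_
    exact_mod_cast hlow
  have hbig : max H 1 < Real.log (max A B : ℕ) := by
    refine hm0'.trans_le (le_trans ?_ hlog)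
    exact mul_le_mul_of_nonneg_right (by exact_mod_cast hm3) hℓ1.le
  -- the height from above
  have hup : Real.log (max A B : ℕ) ≤ M * sg := by
    have h1 : ∀ (c : T → Fin M), ∀ p ∈ T, (fun p => if h : p ∈ T then (c ⟨p, h⟩ : ℕ) else 0) p ≤ M := by
      intro c p hp
      simp only [hp, dite_true]
      exact (c ⟨p, hp⟩).2.le
    have hA' : Real.log (A : ℝ) ≤ M * sg := by
      refine (Real.log_le_log (by exact_mod_cast hAp) ?_).trans (log_prodPow_le hT a' M (h1 a))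
      have : A ≤ A0 := by rw [hA]; exact Nat.le_mul_of_pos_left _ hGp
      exact_mod_cast this
    have hB' : Real.log (B : ℝ) ≤ M * sg := by
      refine (Real.log_le_log (by exact_mod_cast hBp) ?_).trans (log_prodPow_le hT b' M (h1 b))
      have : B ≤ B0 := by rw [hB]; exact Nat.le_mul_of_pos_left _ hGp
      exact_mod_cast this
    rcases max_choice A B with h | h
    · rw [h]; exact hA'
    · rw [h]; exact hB'
  refine ⟨A, B, m, hAp, hBp, hAB, hcop, ?_, hdvd, (le_max_left _ _).trans_lt hbig, (le_max_right _ _).trans hbig.le, ?_⟩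
  · intro p hp hpAB
    rcases (Nat.Prime.dvd_mul hp).1 hpAB with h | h
    · exact mem_of_dvd_prodPow hT a' hp (h.trans (by rw [← hA0, hA]; exact Dvd.intro_left _ rfl))
    · exact mem_of_dvd_prodPow hT b' hp (h.trans (by rw [← hB0, hB]; exact Dvd.intro_left _ rfl))
  · have hpos : 0 < Real.log (max A B : ℕ) := lt_of_lt_of_le one_pos ((le_max_right _ _).trans hbig.le)
    have h1 : Real.log (Real.log (max A B : ℕ)) ≤ Real.log M + Real.log sg := by
      rw [← Real.log_mul (by positivity) hsg1.ne']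
      exact Real.log_le_log hpos hup
    have h2 : (s : ℝ) * Real.log M ≤ (m + 1) * Real.log ℓ := by
      have h3 : ((M ^ s : ℕ) : ℝ) ≤ ((ℓ ^ (m + 1) : ℕ) : ℝ) := by
        have : M ^ s ≤ ℓ ^ (m + 1) := by omega
        exact_mod_cast this
      have h4 := Real.log_le_log (by positivity) h3
      rw [Nat.cast_pow, Nat.cast_pow, Real.log_pow, Real.log_pow] at h4
      push_cast at h4 ⊢
      exact h4
    have h5 := mul_le_mul_of_nonneg_left h1 (Nat.cast_nonneg s : (0 : ℝ) ≤ (s : ℝ))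
    calc (s : ℝ) * Real.log (Real.log (max A B : ℕ)) ≤ s * (Real.log M + Real.log sg) := h5
      _ = s * Real.log M + s * Real.log sg := by ring
      _ ≤ (m + 1) * Real.log ℓ + s * Real.log sg := by linarith
      _ = m * Real.log ℓ + (Real.log ℓ + s * Real.log sg) := by ring

end Pool.Agent.KS6_8.VJ
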