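import Mathlib
import Pool.Agent.KS6_8.VJ.M1

/-!
`T`-units of the rational numbers which are close to `1` in the real numbers (pigeonhole principle).
-/

set_option autoImplicit false

namespace Pool.Agent.KS6_8.VJ

open Finset Real

/-- **M1, real form.** -/
theorem m1_real {T : Finset ℕ} (hT : ∀ p ∈ T, p.Prime) (hT2 : 2 ≤ T.card) :
    ∃ c : ℝ, ∀ ε : ℝ, 0 < ε → ∀ H : ℝ, ∃ A B : ℕ, 0 < B ∧ B < A ∧ A.Coprime B ∧
      (∀ p : ℕ, p.Prime → p ∣ A * B → p ∈ T) ∧ (A : ℝ) / B - 1 < ε ∧ H < Real.log A ∧ 1 ≤ Real.log A ∧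
      ((T.card : ℝ) - 1) * Real.log (Real.log A) ≤ -Real.log ((A : ℝ) / B - 1) + c := by
  classical
  set sg : ℝ := ∑ p ∈ T, Real.log p with hsg
  have hT0 : T.Nonempty := Finset.card_pos.1 (by omega)
  have hsg1 : 0 < sg := Finset.sum_pos (fun p hp => Real.log_pos (by exact_mod_cast (hT p hp).one_lt)) hT0
  refine ⟨((T.card : ℝ) - 1) * Real.log sg + Real.log 4 + Real.log sg, fun ε hε H => ?_⟩
  set s : ℕ := T.card with hs
  -- the size of the exponents
  set η : ℝ := min (min (ε / 2) (1 / 2)) (Real.exp (-(max H 1)) / 2) with hη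
  have hη0 : 0 < η := by
    rw [hη]
    refine lt_min (lt_min (by linarith) (by norm_num)) (by positivity)
  obtain ⟨M0, hM0⟩ := exists_nat_gt (4 * sg / η)
  set M : ℕ := max M0 2 with hM
  have hM2 : 2 ≤ M := le_max_right _ _
  have hMpos : (0 : ℝ) < M := by
    have : (2 : ℝ) ≤ M := by exact_mod_cast hM2
    linarith
  have hM1 : 4 * sg / η < M := hM0.trans_le (by exact_mod_cast le_max_left M0 2)
  set N : ℕ := M ^ s - 1 with hN
  have hMs : M * M ≤ M ^ s := by
    calc M * M = M ^ 2 := (sq M).symm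
      _ ≤ M ^ s := Nat.pow_le_pow_right (by omega) hT2
  have h4 : 4 ≤ M * M := by nlinarith
  have hN1 : 1 ≤ N := by omega
  have hNr : (N : ℝ) = (M : ℝ) ^ s - 1 := by
    rw [hN, Nat.cast_sub (by omega), Nat.cast_pow, Nat.cast_one]
  have hN2 : (M : ℝ) ^ s / 2 ≤ N := by
    have h5 : (4 : ℝ) ≤ (M : ℝ) ^ s := by
      have : 4 ≤ M ^ s := h4.trans hMs
      exact_mod_cast this
    rw [hNr]
    linarith
  have hNpos : (0 : ℝ) < N := by exact_mod_cast hN1
  have hMsg : 0 < (M : ℝ) * sg := by positivity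
  -- pigeonhole
  let vec : (T → Fin M) → ℕ → ℕ := fun a p => if h : p ∈ T then (a ⟨p, h⟩ : ℕ) else 0
  have hvec : ∀ a, ∀ p ∈ T, vec a p ≤ M - 1 := by
    intro a p hp
    simp only [vec, hp, dite_true]
    have := (a ⟨p, hp⟩).2
    omega
  let lg : (T → Fin M) → ℝ := fun a => Real.log (prodPow T (vec a))
  have hlg0 : ∀ a, 0 ≤ lg a := fun a => Real.log_natCast_nonneg _
  have hlg1 : ∀ a, lg a < M * sg := by
    intro a
    refine (log_prodPow_le hT (vec a) (M - 1) (hvec a)).trans_lt ?_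
    refine mul_lt_mul_of_pos_right ?_ hsg1
    exact_mod_cast (by omega : M - 1 < M)
  have hfl : ∀ a, ⌊lg a * N / (M * sg)⌋₊ < N := by
    intro a
    rw [Nat.floor_lt (div_nonneg (mul_nonneg (hlg0 a) hNpos.le) hMsg.le), div_lt_iff₀ hMsg]
    rw [mul_comm (N : ℝ)]
    exact mul_lt_mul_of_pos_right (hlg1 a) hNpos
  let f : (T → Fin M) → Fin N := fun a => ⟨⌊lg a * N / (M * sg)⌋₊, hfl a⟩
  have hcard : Fintype.card (Fin N) < Fintype.card (T → Fin M) := by
    rw [Fintype.card_fin, Fintype.card_fun, Fintype.card_fin, Fintype.card_coe, ← hs]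
    omega
  obtain ⟨a, b, hab, hfab⟩ := Fintype.exists_ne_map_eq_of_card_lt f hcard
  have hval : ∀ a b : T → Fin M, a ≠ b → prodPow T (vec a) ≠ prodPow T (vec b) := by
    intro a b hab h
    apply hab
    funext ⟨p, hp⟩
    have h1 : (prodPow T (vec a)).factorization p = (prodPow T (vec b)).factorization p := by rw [h]
    rw [factorization_prodPow hT _ hp, factorization_prodPow hT _ hp] at h1
    simp only [vec, hp, dite_true] at h1
    exact Fin.ext h1
  have key : ∃ a b : T → Fin M, prodPow T (vec b) < prodPow T (vec a) ∧ lg a - lg b < M * sg / N := by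
    have hdiff : ∀ a b : T → Fin M, f a = f b → lg a - lg b < M * sg / N := by
      intro a b h
      have h1 : ⌊lg a * N / (M * sg)⌋₊ = ⌊lg b * N / (M * sg)⌋₊ := congrArg Fin.val h
      have h2 : lg a * N / (M * sg) < ⌊lg a * N / (M * sg)⌋₊ + 1 := Nat.lt_floor_add_one _
      have h3 : (⌊lg b * N / (M * sg)⌋₊ : ℝ) ≤ lg b * N / (M * sg) :=
        Nat.floor_le (div_nonneg (mul_nonneg (hlg0 b) hNpos.le) hMsg.le)
      rw [h1] at h2
      have h4 : lg a * N / (M * sg) - lg b * N / (M * sg) < 1 := by linarith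
      rw [← sub_div, ← sub_mul, div_lt_one hMsg] at h4
      rw [lt_div_iff₀ hNpos]
      exact h4
    rcases lt_or_gt_of_ne (hval a b hab) with h | h
    · exact ⟨b, a, h, hdiff b a hfab.symm⟩
    · exact ⟨a, b, h, hdiff a b hfab⟩
  clear hfab hab a b
  obtain ⟨a, b, hlt, hd⟩ := key
  set A0 := prodPow T (vec a) with hA0
  set B0 := prodPow T (vec b) with hB0
  have hA0p : 0 < A0 := prodPow_pos hT _
  have hB0p : 0 < B0 := prodPow_pos hT _
  set G := Nat.gcd A0 B0 with hG
  have hGp : 0 < G := Nat.gcd_pos_of_pos_left _ hA0p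
  obtain ⟨A, hA⟩ := Nat.gcd_dvd_left A0 B0
  obtain ⟨B, hB⟩ := Nat.gcd_dvd_right A0 B0
  rw [← hG] at hA hB
  have hAp : 0 < A := Nat.pos_of_ne_zero fun h => by rw [h, mul_zero] at hA; omega
  have hBp : 0 < B := Nat.pos_of_ne_zero fun h => by rw [h, mul_zero] at hB; omega
  have hcop : A.Coprime B := by
    have h1 := Nat.coprime_div_gcd_div_gcd (m := A0) (n := B0) hGp
    rwa [← hG, hA, hB, Nat.mul_div_cancel_left _ hGp, Nat.mul_div_cancel_left _ hGp] at h1
  have hBA : B < A := by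
    by_contra h
    push Not at h
    have := Nat.mul_le_mul_left G h
    rw [← hA, ← hB] at this
    omega
  have hAr : (0 : ℝ) < A := by exact_mod_cast hAp
  have hBr : (0 : ℝ) < B := by exact_mod_cast hBp
  have hGr : (0 : ℝ) < G := by exact_mod_cast hGp
  have hlgAB : Real.log A - Real.log B = lg a - lg b := by
    have h1 : lg a = Real.log G + Real.log A := by
      show Real.log (A0 : ℝ) = _
      rw [hA, Nat.cast_mul, Real.log_mul hGr.ne' hAr.ne']
    have h2 : lg b = Real.log G + Real.log B := by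
      show Real.log (B0 : ℝ) = _
      rw [hB, Nat.cast_mul, Real.log_mul hGr.ne' hBr.ne']
    rw [h1, h2]
    ring
  set δ : ℝ := Real.log A - Real.log B with hδ
  have hδ0 : 0 < δ := by
    rw [hδ, sub_pos]
    exact Real.log_lt_log hBr (by exact_mod_cast hBA)
  have hδ1 : δ < M * sg / N := by rw [hlgAB]; exact hd
  have hδ2 : M * sg / N ≤ 2 * sg / (M : ℝ) ^ (s - 1) := by
    rw [div_le_div_iff₀ hNpos (by positivity)]
    have e1 : (M : ℝ) ^ s = M * (M : ℝ) ^ (s - 1) := by
      rw [← pow_succ']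
      congr 1
      omega
    calc (M : ℝ) * sg * (M : ℝ) ^ (s - 1) = sg * (M : ℝ) ^ s := by rw [e1]; ring
      _ ≤ 2 * sg * N := by nlinarith
  have hMle : (M : ℝ) ≤ (M : ℝ) ^ (s - 1) := by
    calc (M : ℝ) = (M : ℝ) ^ 1 := (pow_one _).symm
      _ ≤ (M : ℝ) ^ (s - 1) := pow_le_pow_right₀ (by
        have : (2 : ℝ) ≤ M := by exact_mod_cast hM2
        linarith) (by omega)
  have hδ3 : δ < η / 2 := by
    refine (hδ1.trans_le hδ2).trans_le ?_
    rw [div_le_div_iff₀ (by positivity) (by norm_num)]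
    have h5 : 4 * sg < M * η := by
      rwa [div_lt_iff₀ hη0] at hM1
    nlinarith
  have hη1 : η ≤ ε / 2 := (min_le_left _ _).trans (min_le_left _ _)
  have hη2 : η ≤ 1 / 2 := (min_le_left _ _).trans (min_le_right _ _)
  have hη3 : η ≤ Real.exp (-(max H 1)) / 2 := min_le_right _ _
  have hratio : (A : ℝ) / B = Real.exp δ := by
    rw [hδ, Real.exp_sub, Real.exp_log hAr, Real.exp_log hBr]
  have hexp : Real.exp δ - 1 ≤ 2 * δ := by
    have h3 := Real.abs_exp_sub_one_le (x := δ) (by rw [abs_of_pos hδ0]; linarith)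
    rw [abs_of_pos hδ0] at h3
    exact (le_abs_self _).trans h3
  have hpos : 0 < (A : ℝ) / B - 1 := by
    rw [hratio]
    have := Real.add_one_lt_exp hδ0.ne'
    linarith
  have hsmall : (A : ℝ) / B - 1 < η := by
    rw [hratio]
    linarith
  have hbig : max H 1 < Real.log A := by
    rw [Real.lt_log_iff_exp_lt hAr]
    have h5 : 1 / (B : ℝ) ≤ (A : ℝ) / B - 1 := by
      rw [div_sub_one hBr.ne']
      refine div_le_div_of_nonneg_right ?_ hBr.le
      have : (B : ℝ) + 1 ≤ A := by exact_mod_cast hBA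
      linarith
    have h6 : 1 / (B : ℝ) < Real.exp (-(max H 1)) := by
      have := Real.exp_pos (-(max H 1))
      linarith
    rw [Real.exp_neg, one_div, inv_lt_inv₀ hBr (Real.exp_pos _)] at h6
    refine h6.trans ?_
    exact_mod_cast hBA
  refine ⟨A, B, hBp, hBA, hcop, ?_, by linarith, (le_max_left _ _).trans_lt hbig, (le_max_right _ _).trans hbig.le, ?_⟩
  · intro p hp hpAB
    rcases (Nat.Prime.dvd_mul hp).1 hpAB with h | h
    · exact mem_of_dvd_prodPow hT (vec a) hp (h.trans (by rw [← hA0, hA]; exact Dvd.intro_left _ rfl))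
    · exact mem_of_dvd_prodPow hT (vec b) hp (h.trans (by rw [← hB0, hB]; exact Dvd.intro_left _ rfl))
  · have hAM : Real.log A ≤ M * sg := by
      refine le_trans ?_ (hlg1 a).le
      refine Real.log_le_log hAr ?_
      have : A ≤ A0 := by rw [hA]; exact Nat.le_mul_of_pos_left _ hGp
      exact_mod_cast this
    have hlogApos : 0 < Real.log A := lt_of_lt_of_le one_pos ((le_max_right _ _).trans hbig.le)
    have h7 : Real.log (Real.log A) ≤ Real.log M + Real.log sg := by
      rw [← Real.log_mul hMpos.ne' hsg1.ne']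
      exact Real.log_le_log hlogApos hAM
    have h8 : Real.log ((A : ℝ) / B - 1) ≤ Real.log 4 + Real.log sg - ((s : ℝ) - 1) * Real.log M := by
      have h9 : (A : ℝ) / B - 1 ≤ 4 * sg / (M : ℝ) ^ (s - 1) := by
        rw [hratio]
        calc Real.exp δ - 1 ≤ 2 * δ := hexp
          _ ≤ 2 * (2 * sg / (M : ℝ) ^ (s - 1)) := by linarith [hδ1.trans_le hδ2]
          _ = 4 * sg / (M : ℝ) ^ (s - 1) := by ring
      have h10 := Real.log_le_log hpos h9
      rw [Real.log_div (by positivity) (by positivity), Real.log_mul (by norm_num) hsg1.ne', Real.log_pow,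
        Nat.cast_sub (by omega : 1 ≤ s), Nat.cast_one] at h10
      exact h10
    have hs1 : (0 : ℝ) ≤ (s : ℝ) - 1 := by
      have : (2 : ℝ) ≤ s := by exact_mod_cast hT2
      linarith
    have h11 := mul_le_mul_of_nonneg_left h7 hs1
    nlinarith

end Pool.Agent.KS6_8.VJ
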