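import Mathlib
import Pool.Agent.KS6_8.VJ.M1R

/-!
M1 in the form of the definitions file.
-/

set_option autoImplicit false

namespace Pool.Agent.KS6_8.VJ

theorem dvd_prod_pow {T : Finset ℕ} (hT : ∀ p ∈ T, p.Prime) {B : ℕ} (hB : B ≠ 0)
    (h : ∀ p : ℕ, p.Prime → p ∣ B → p ∈ T) {j : ℕ} (hj : B ≤ j) : B ∣ (∏ p ∈ T, p) ^ j := by
  have hP : (∏ p ∈ T, p) ≠ 0 := Finset.prod_ne_zero_iff.2 fun p hp => (hT p hp).ne_zero
  rw [← Nat.factorization_le_iff_dvd hB (pow_ne_zero _ hP)]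
  intro p
  by_cases hp : p.Prime ∧ p ∣ B
  · have h1 : p ∈ T := h p hp.1 hp.2
    have h2 : 1 ≤ (∏ p ∈ T, p).factorization p := by
      refine (Nat.Prime.dvd_iff_one_le_factorization hp.1 hP).1 (Finset.dvd_prod_of_mem _ h1)
    have h3 : B.factorization p ≤ B := (Nat.factorization_lt p hB).le
    rw [Nat.factorization_pow, Finsupp.smul_apply, smul_eq_mul]
    nlinarith
  · have h4 : B.factorization p = 0 := by
      rcases not_and_or.1 hp with h5 | h5
      · exact Nat.factorization_eq_zero_of_not_prime _ h5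
      · exact Nat.factorization_eq_zero_of_not_dvd h5
    rw [h4]
    exact Nat.zero_le _

theorem stM1 : ∀ T : Finset ℕ, (∀ p ∈ T, p.Prime) → 2 ≤ T.card → ∃ A : ℝ, ∀ ε : ℝ, 0 < ε →
  ∃ w : ℚ, 0 < w ∧ w ≠ 1 ∧ |(w : ℝ) - 1| < ε ∧
    (∃ j : ℕ, ∃ a b : ℤ, ((∏ p ∈ T, p : ℕ) : ℚ) ^ j * w = a ∧ ((∏ p ∈ T, p : ℕ) : ℚ) ^ j * w⁻¹ = b) ∧
    ((T.card : ℝ) - 1) * Real.posLog (Height.logHeight₁ w) ≤ - Real.log |(w : ℝ) - 1| + A := by
  intro T hT hT2
  obtain ⟨c, hc⟩ := m1_real hT hT2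
  refine ⟨c, fun ε hε => ?_⟩
  obtain ⟨A, B, hB, hBA, hcop, hp, hsmall, -, h1, hmain⟩ := hc ε hε 0
  have hBr : (0 : ℝ) < B := by exact_mod_cast hB
  have hA : 0 < A := lt_trans hB hBA
  have hBq : (0 : ℚ) < B := by exact_mod_cast hB
  have hAq : (0 : ℚ) < A := by exact_mod_cast hA
  have hgt : (1 : ℝ) < (A : ℝ) / B := by
    rw [one_lt_div hBr]
    exact_mod_cast hBA
  have hcast : (((A : ℚ) / B : ℚ) : ℝ) = (A : ℝ) / B := by push_cast; rfl
  refine ⟨(A : ℚ) / B, div_pos hAq hBq, ?_, ?_, ?_, ?_⟩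
  · intro h
    rw [div_eq_one_iff_eq hBq.ne'] at h
    have : A = B := by exact_mod_cast h
    omega
  · rw [hcast, abs_of_pos (by linarith)]
    exact hsmall
  · obtain ⟨x, hx⟩ := dvd_prod_pow hT hB.ne' (fun p hp1 hp2 => hp p hp1 (hp2.mul_left A)) (j := A + B) (by omega)
    obtain ⟨y, hy⟩ := dvd_prod_pow hT hA.ne' (fun p hp1 hp2 => hp p hp1 (hp2.mul_right B)) (j := A + B) (by omega)
    refine ⟨A + B, (x * A : ℕ), (y * B : ℕ), ?_, ?_⟩
    · rw [← Nat.cast_pow, hx]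
      push_cast
      field_simp
    · rw [← Nat.cast_pow, hy]
      push_cast
      field_simp
  · have hnum : ((A : ℚ) / B).num = A := by
      have := Rat.num_div_eq_of_coprime (a := (A : ℤ)) (b := (B : ℤ)) (by exact_mod_cast hB) (by simpa using hcop)
      push_cast at this
      exact this
    have hden : ((A : ℚ) / B).den = B := by
      have := Rat.den_div_eq_of_coprime (a := (A : ℤ)) (b := (B : ℤ)) (by exact_mod_cast hB) (by simpa using hcop)
      push_cast at this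
      exact_mod_cast this
    have hh : Height.logHeight₁ ((A : ℚ) / B) = Real.log A := by
      rw [Rat.logHeight₁_eq_log_max, hnum, hden, Int.natAbs_natCast, max_eq_left hBA.le]
    rw [hh, hcast, abs_of_pos (by linarith), Real.posLog_eq_log (by rw [abs_of_nonneg (by linarith)]; exact h1)]
    exact hmain

end Pool.Agent.KS6_8.VJ
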