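import Mathlib
import Pool.Agent.KS6_8.VJ.TD

/-!
The specialised trace-dual identity at the points where the element of the different does not vanish.
-/

set_option autoImplicit false

namespace Pool.Agent.KS6_8.VJ

open nonZeroDivisors TensorProduct

theorem exists_kill {K B L : Type*} [Field K] [CommRing B] [Algebra K B] [Module.Finite K B] [Field L] [Algebra K L]
    (Φ : B →ₐ[K] L) (ρ : B) (hρ : Φ ρ ≠ 0) (hnil : ∀ n : B, IsNilpotent n → ρ * n = 0) :
    ∃ x : B, Φ x ≠ 0 ∧ ∀ m, Φ m = 0 → x * m = 0 := by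
  have : IsArtinianRing B := IsArtinianRing.of_finite K B
  set M : Ideal B := RingHom.ker Φ with hM
  obtain ⟨k, hk⟩ := IsArtinian.monotone_stabilizes (R := B) (M := B)
    (⟨fun n => OrderDual.toDual (M ^ n), fun a b h => Ideal.pow_le_pow_right h⟩ : ℕ →o (Submodule B B)ᵒᵈ)
  have hk' : ∀ m, k ≤ m → M ^ k = M ^ m := fun m hm => hk m hm
  have hidem : IsIdempotentElem (M ^ (k + 1)) := by
    show M ^ (k + 1) * M ^ (k + 1) = M ^ (k + 1)
    rw [← pow_add, ← hk' (k + 1 + (k + 1)) (by omega), hk' (k + 1) (by omega)]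
  obtain ⟨e, he, hMe⟩ := (Ideal.isIdempotentElem_iff_of_fg _ (IsNoetherian.noetherian _)).1 hidem
  have heM : Φ e = 0 := by
    have h1 : e ∈ M ^ (k + 1) := by rw [hMe]; exact Ideal.mem_span_singleton_self e
    exact (Ideal.pow_le_self (Nat.succ_ne_zero k)) h1
  refine ⟨ρ * (1 - e), ?_, fun m hm => ?_⟩
  · rw [map_mul, map_sub, heM, map_one, sub_zero, mul_one]
    exact hρ
  · have h2 : m ^ (k + 1) ∈ M ^ (k + 1) := Ideal.pow_mem_pow hm _
    rw [hMe, Ideal.mem_span_singleton] at h2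
    obtain ⟨c, hc⟩ := h2
    have h3 : IsNilpotent (m * (1 - e)) := by
      refine ⟨k + 1, ?_⟩
      have h4 : e * (1 - e) = 0 := by
        rw [mul_sub, mul_one, he.eq, sub_self]
      rw [mul_pow, hc, pow_succ (1 - e)]
      calc e * c * ((1 - e) ^ k * (1 - e)) = c * (1 - e) ^ k * (e * (1 - e)) := by ring
        _ = 0 := by rw [h4, mul_zero]
    have h5 := hnil _ h3
    calc ρ * (1 - e) * m = ρ * (m * (1 - e)) := by ring
      _ = 0 := h5

/-- **The specialised identity**, at the points where `r` does not vanish. -/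
theorem spec' {R A ι : Type*} [CommRing R] [CommRing A] [Algebra R A] [Fintype ι] [DecidableEq ι]
    {K L : Type*} [Field K] [Algebra R K] [Field L] [Algebra K L] [FiniteDimensional K L]
    [Algebra.IsSeparable K L] (b : Module.Basis ι R A) (r : A) (g : ι → A)
    (h : ∀ a : A, r * a = ∑ i, algebraMap R A (Algebra.trace R A (a * b i)) * g i)
    (φ : A →+* L) (hφ : ∀ x : R, φ (algebraMap R A x) = algebraMap K L (algebraMap R K x))
    (hgen : Algebra.adjoin K (Set.range φ) = ⊤) (hr : φ r ≠ 0) (z : L) :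
    φ r * z = ∑ i, algebraMap K L (Algebra.trace K L (z * φ (b i))) * φ (g i) := by
  have hfree : Module.Free R A := Module.Free.of_basis b
  have hfin : Module.Finite R A := Module.Finite.of_basis b
  let iRL : Algebra R L := ((algebraMap K L).comp (algebraMap R K)).toAlgebra
  have : IsScalarTower R K L := IsScalarTower.of_algebraMap_eq fun _ => rfl
  let φ' : A →ₐ[R] L := { φ with commutes' := hφ }
  let Φ : K ⊗[R] A →ₐ[K] L := Algebra.TensorProduct.lift (Algebra.ofId K L) φ' (fun _ _ => Commute.all _ _)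
  have hΦ1 : ∀ a : A, Φ (1 ⊗ₜ a) = φ a := fun a => by
    show Algebra.TensorProduct.lift (Algebra.ofId K L) φ' (fun _ _ => Commute.all _ _) ((1 : K) ⊗ₜ[R] a) = φ a
    rw [Algebra.TensorProduct.lift_tmul, map_one, one_mul]
    rfl
  have hsurj : Function.Surjective Φ := by
    rw [← AlgHom.range_eq_top, eq_top_iff, ← hgen]
    refine Algebra.adjoin_le ?_
    rintro _ ⟨a, rfl⟩
    exact ⟨1 ⊗ₜ a, hΦ1 a⟩
  have hnil : ∀ n : K ⊗[R] A, IsNilpotent n → ((1 : K) ⊗ₜ[R] r) * n = 0 := by
    intro n hn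
    rw [base_identity K b r g h n]
    refine Finset.sum_eq_zero fun i _ => ?_
    have h1 : IsNilpotent (n * ((1 : K) ⊗ₜ[R] b i)) := (Commute.all _ _).isNilpotent_mul_right hn
    have h2 := (Algebra.isNilpotent_trace_of_isNilpotent (R := K) h1).eq_zero
    rw [h2, zero_smul]
  obtain ⟨x, hx, hkill⟩ := exists_kill Φ (1 ⊗ₜ r) (by rw [hΦ1]; exact hr) hnil
  obtain ⟨β, hβ⟩ := hsurj (z / Φ x)
  have hΦa : Φ (x * β) = z := by rw [map_mul, hβ, mul_div_cancel₀ _ hx]
  have ha' : ∀ γ, Algebra.trace K (K ⊗[R] A) ((x * β) * γ) = Algebra.trace K L (z * Φ γ) := fun γ => by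
    rw [trace_of_kill Φ hsurj ((x * β) * γ) fun m hm => by
      calc x * β * γ * m = x * m * (β * γ) := by ring
        _ = 0 := by rw [hkill m hm, zero_mul], map_mul, hΦa]
  have h3 := congrArg Φ (base_identity K b r g h (x * β))
  rw [map_mul, hΦ1, hΦa, map_sum] at h3
  rw [h3]
  refine Finset.sum_congr rfl fun i _ => ?_
  rw [map_smul, hΦ1, ha', hΦ1, Algebra.smul_def]

end Pool.Agent.KS6_8.VJ
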