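import Mathlib
import Pool.Agent.KS6_8.VJ.TD2
import Pool.Agent.KS6_16.VJ.Defs

/-!
M2 in the form of the definitions file.
-/

set_option autoImplicit false

namespace Pool.Agent.KS6_8.VJ

open nonZeroDivisors NumberField IsDedekindDomain Polynomial
open scoped LaurentPolynomial

/-- some `N ^ j * x` is an algebraic integer -/
def NInt {L : Type} [Field L] (N : ℕ) (x : L) : Prop := ∃ j : ℕ, IsIntegral ℤ ((N : L) ^ j * x)

section nint

variable {L : Type} [Field L] {N : ℕ}

theorem isIntegral_natCast_pow (j : ℕ) : IsIntegral ℤ ((N : L) ^ j) :=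
  IsIntegral.pow (by
    have := isIntegral_algebraMap (R := ℤ) (A := L) (x := (N : ℤ))
    simpa using this) j

theorem isIntegral_mono {x : L} {i j : ℕ} (hij : i ≤ j) (h : IsIntegral ℤ ((N : L) ^ i * x)) :
    IsIntegral ℤ ((N : L) ^ j * x) := by
  have e : (N : L) ^ j * x = (N : L) ^ (j - i) * ((N : L) ^ i * x) := by
    rw [← mul_assoc, ← pow_add]
    congr 2
    omega
  rw [e]
  exact (isIntegral_natCast_pow _).mul h

theorem NInt.add {x y : L} (hx : NInt N x) (hy : NInt N y) : NInt N (x + y) := by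
  obtain ⟨i, hi⟩ := hx
  obtain ⟨j, hj⟩ := hy
  refine ⟨max i j, ?_⟩
  rw [mul_add]
  exact (isIntegral_mono (le_max_left _ _) hi).add (isIntegral_mono (le_max_right _ _) hj)

theorem NInt.mul {x y : L} (hx : NInt N x) (hy : NInt N y) : NInt N (x * y) := by
  obtain ⟨i, hi⟩ := hx
  obtain ⟨j, hj⟩ := hy
  refine ⟨i + j, ?_⟩
  have e : (N : L) ^ (i + j) * (x * y) = ((N : L) ^ i * x) * ((N : L) ^ j * y) := by ring
  rw [e]
  exact hi.mul hj

theorem NInt.one : NInt N (1 : L) := ⟨0, by rw [pow_zero, one_mul]; exact isIntegral_one⟩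

theorem NInt.pow {x : L} (hx : NInt N x) (n : ℕ) : NInt N (x ^ n) := by
  induction n with
  | zero => rw [pow_zero]; exact NInt.one
  | succ n ih => rw [pow_succ]; exact ih.mul hx

end nint

theorem exists_pow_fin {K : Type} [Field K] {N : ℕ} {ι : Type*} (t : Finset ι) (x : ι → K)
    (hx : ∀ i ∈ t, NInt N (x i)) : ∃ J : ℕ, ∀ i ∈ t, IsIntegral ℤ ((N : K) ^ J * x i) := by
  classical
  induction t using Finset.induction_on with
  | empty => exact ⟨0, by simp⟩
  | insert a t ha ih =>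
    obtain ⟨J, hJ⟩ := ih fun i hi => hx i (Finset.mem_insert_of_mem hi)
    obtain ⟨j, hj⟩ := hx a (Finset.mem_insert_self a t)
    refine ⟨max J j, fun i hi => ?_⟩
    rcases Finset.mem_insert.1 hi with rfl | hi
    · exact isIntegral_mono (le_max_right _ _) hj
    · exact isIntegral_mono (le_max_left _ _) (hJ i hi)

/-- a root of a monic polynomial with `N`-integral coefficients is `N`-integral -/
theorem nint_root {K L : Type} [Field K] [NumberField K] [Field L] [NumberField L] [Algebra K L] {N : ℕ}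
    (p : K[X]) (hp : p.Monic) (hc : ∀ i, NInt N (p.coeff i)) (x : L) (hx : aeval x p = 0) : NInt N x := by
  obtain ⟨J, hJ⟩ := exists_pow_fin (Finset.range (p.natDegree + 1)) p.coeff fun i _ => hc i
  refine ⟨J, ?_⟩
  have hq : (p.scaleRoots ((N : K) ^ J)) ∈ Polynomial.lifts (algebraMap (𝓞 K) K) := by
    rw [Polynomial.lifts_iff_coeff_lifts]
    intro i
    rw [Polynomial.coeff_scaleRoots]
    rcases lt_trichotomy i p.natDegree with hi | hi | hi
    · have h1 : IsIntegral ℤ (p.coeff i * ((N : K) ^ J) ^ (p.natDegree - i)) := by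
        have e1 : p.natDegree - i = (p.natDegree - i - 1) + 1 := by omega
        rw [e1, pow_succ]
        have e2 : p.coeff i * (((N : K) ^ J) ^ (p.natDegree - i - 1) * (N : K) ^ J) =
            ((N : K) ^ J) ^ (p.natDegree - i - 1) * ((N : K) ^ J * p.coeff i) := by ring
        rw [e2]
        exact ((isIntegral_natCast_pow J).pow _).mul (hJ i (Finset.mem_range.2 (by omega)))
      exact ⟨⟨_, h1⟩, rfl⟩
    · refine ⟨1, ?_⟩
      rw [hi, tsub_self, pow_zero, mul_one, map_one]
      exact hp.coeff_natDegree.symm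
    · refine ⟨0, ?_⟩
      rw [Polynomial.coeff_eq_zero_of_natDegree_lt hi, zero_mul, map_zero]
  obtain ⟨q, hq1, -, hq3⟩ := Polynomial.lifts_and_natDegree_eq_and_monic hq ((Polynomial.monic_scaleRoots_iff _).2 hp)
  have hint : IsIntegral (𝓞 K) (algebraMap K L ((N : K) ^ J) * x) := by
    refine ⟨q, hq3, ?_⟩
    have h1 : aeval (algebraMap K L ((N : K) ^ J) * x) (p.scaleRoots ((N : K) ^ J)) = 0 :=
      Polynomial.scaleRoots_aeval_eq_zero hx
    rw [← hq1, aeval_map_algebraMap] at h1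
    exact h1
  rw [map_pow, map_natCast] at hint
  exact isIntegral_trans _ hint

/-- values of Laurent polynomials -/
theorem laurent_nint {k : Type} [Field k] [NumberField k] (c : k[T;T⁻¹]) : ∃ N₀ : ℕ, 0 < N₀ ∧ ∀ N : ℕ, 0 < N → N₀ ∣ N →
    ∀ (K : Type) [Field K] [NumberField K] (ev : k[T;T⁻¹] →+* K), NInt N (ev (LaurentPolynomial.T 1)) →
      NInt N (ev (LaurentPolynomial.T (-1))) → NInt N (ev c) := by
  induction c using LaurentPolynomial.induction_on' with
  | add p q hp hq =>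
    obtain ⟨N1, h1, h1'⟩ := hp
    obtain ⟨N2, h2, h2'⟩ := hq
    refine ⟨N1 * N2, Nat.mul_pos h1 h2, fun N hN hd K _ _ ev hu hu' => ?_⟩
    rw [map_add]
    exact (h1' N hN ((Dvd.intro _ rfl).trans hd) K ev hu hu').add (h2' N hN ((Dvd.intro_left _ rfl).trans hd) K ev hu hu')
  | C_mul_T n a =>
    obtain ⟨m, hm0, hm⟩ : ∃ m : ℕ, 0 < m ∧ IsIntegral ℤ ((m : k) * a) := by
      obtain ⟨⟨x, s⟩, hx⟩ := IsLocalization.surj (Algebra.algebraMapSubmonoid (𝓞 k) ℤ⁰) a
      obtain ⟨z, hz, hzs⟩ : ∃ z, z ∈ ℤ⁰ ∧ algebraMap ℤ (𝓞 k) z = s := s.2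
      refine ⟨z.natAbs, Int.natAbs_pos.2 (nonZeroDivisors.ne_zero hz), ?_⟩
      have h1 : IsIntegral ℤ ((z : k) * a) := by
        have e1 : (z : k) * a = (x : k) := by
          have e2 : algebraMap (𝓞 k) k (s : 𝓞 k) = (z : k) := by
            rw [← hzs]
            simp
          rw [← e2, mul_comm]
          exact hx
        rw [e1]
        exact x.isIntegral_coe
      rcases Int.natAbs_eq z with h | h
      · have e3 : ((z.natAbs : ℕ) : k) = (z : k) := by
          conv_rhs => rw [h]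
          simp
        rw [e3]
        exact h1
      · have e3 : ((z.natAbs : ℕ) : k) = -(z : k) := by
          conv_rhs => rw [h]
          simp
        rw [e3, neg_mul]
        exact h1.neg
    refine ⟨m, hm0, fun N hN hd K _ _ ev hu hu' => ?_⟩
    obtain ⟨d, rfl⟩ := hd
    rw [map_mul]
    refine NInt.mul ⟨1, ?_⟩ ?_
    · have h2 : IsIntegral ℤ (ev (LaurentPolynomial.C ((m : k) * a))) :=
        map_isIntegral_int (ev.comp (LaurentPolynomial.C : k →+* k[T;T⁻¹])) hm
      rw [map_mul, map_mul, map_natCast, map_natCast] at h2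
      have e4 : ((m * d : ℕ) : K) ^ 1 * ev (LaurentPolynomial.C a) = (d : K) * ((m : K) * ev (LaurentPolynomial.C a)) := by
        push_cast
        ring
      rw [e4]
      refine IsIntegral.mul ?_ h2
      have := isIntegral_natCast_pow (L := K) (N := d) 1
      rwa [pow_one] at this
    · rcases Int.eq_nat_or_neg n with ⟨i, rfl | rfl⟩
      · have e5 : (LaurentPolynomial.T (i : ℤ) : k[T;T⁻¹]) = LaurentPolynomial.T 1 ^ i := by
          rw [LaurentPolynomial.T_pow, mul_one]
        rw [e5, map_pow]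
        exact hu.pow i
      · have e5 : (LaurentPolynomial.T (-(i : ℤ)) : k[T;T⁻¹]) = LaurentPolynomial.T (-1) ^ i := by
          rw [LaurentPolynomial.T_pow]
          congr 1
          ring
        rw [e5, map_pow]
        exact hu'.pow i

/-- the values of an element integral over the Laurent polynomials -/
theorem exists_nint {k : Type} [Field k] [NumberField k] {B : Type} [CommRing B] [Algebra k[T;T⁻¹] B]
    (a : B) (ha : IsIntegral k[T;T⁻¹] a) :
    ∃ N₀ : ℕ, 0 < N₀ ∧ ∀ N : ℕ, 0 < N → N₀ ∣ N → ∀ (K L : Type) [Field K] [NumberField K] [Field L]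
      [NumberField L] [Algebra K L] (ev : k[T;T⁻¹] →+* K) (φ : B →+* L),
      (∀ x, φ (algebraMap k[T;T⁻¹] B x) = algebraMap K L (ev x)) →
      NInt N (ev (LaurentPolynomial.T 1)) → NInt N (ev (LaurentPolynomial.T (-1))) → NInt N (φ a) := by
  obtain ⟨p, hp, hpa⟩ := ha
  choose Mc hMc hMi using fun c : k[T;T⁻¹] => laurent_nint c
  refine ⟨∏ i ∈ Finset.range (p.natDegree + 1), Mc (p.coeff i), Finset.prod_pos fun i _ => hMc _, ?_⟩
  intro N hN hd K L _ _ _ _ _ ev φ hφ hu hu'
  refine nint_root (p.map ev) (hp.map ev) (fun i => ?_) (φ a) ?_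
  · rw [Polynomial.coeff_map]
    by_cases hi : i < p.natDegree + 1
    · exact hMi (p.coeff i) N hN
        ((Finset.dvd_prod_of_mem (fun i => Mc (p.coeff i)) (Finset.mem_range.2 hi)).trans hd) K ev hu hu'
    · rw [Polynomial.coeff_eq_zero_of_natDegree_lt (by omega), map_zero]
      exact ⟨0, by rw [mul_zero]; exact isIntegral_zero⟩
  · rw [aeval_def, eval₂_map]
    have e1 : (algebraMap K L).comp ev = φ.comp (algebraMap k[T;T⁻¹] B) := by
      ext x
      · exact (hφ _).symm
      · exact (hφ _).symm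
    rw [e1, ← Polynomial.hom_eval₂, hpa, map_zero]

theorem pid_laurent (k : Type) [Field k] : IsPrincipalIdealRing k[T;T⁻¹] := by
  refine ⟨fun J => ?_⟩
  obtain ⟨g, hg⟩ := (IsPrincipalIdealRing.principal (J.under k[X])).principal
  refine ⟨algebraMap k[X] k[T;T⁻¹] g, ?_⟩
  have h1 := IsLocalization.map_under (Submonoid.powers (X : k[X])) k[T;T⁻¹] J
  rw [hg, Ideal.submodule_span_eq, Ideal.map_span, Set.image_singleton] at h1
  exact h1.symm

/-- evaluation at a point of the base -/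
theorem exists_ev {k : Type} [Field k] {B : Type} [CommRing B] [Algebra k[T;T⁻¹] B]
    {K L : Type} [Field K] [Field L] [Algebra K L] (φ : B →+* L) (u : K)
    (h1 : φ (algebraMap k[T;T⁻¹] B (LaurentPolynomial.T 1)) = algebraMap K L u)
    (h2 : ∀ a : k, ∃ a' : K, φ (algebraMap k[T;T⁻¹] B (LaurentPolynomial.C a)) = algebraMap K L a') :
    ∃ ev : k[T;T⁻¹] →+* K, (∀ x, φ (algebraMap k[T;T⁻¹] B x) = algebraMap K L (ev x)) ∧
      ev (LaurentPolynomial.T 1) = u ∧ ev (LaurentPolynomial.T (-1)) = u⁻¹ := by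
  set ψ : k[T;T⁻¹] →+* L := φ.comp (algebraMap k[T;T⁻¹] B) with hψ
  have hinv : ψ (LaurentPolynomial.T (-1)) = (algebraMap K L u)⁻¹ := by
    have h3 : ψ (LaurentPolynomial.T 1) * ψ (LaurentPolynomial.T (-1)) = 1 := by
      rw [← map_mul, ← LaurentPolynomial.T_add]
      simp
    have h4 : ψ (LaurentPolynomial.T 1) = algebraMap K L u := h1
    rw [h4] at h3
    exact (inv_eq_of_mul_eq_one_right h3).symm
  have hr : ∀ x, ψ x ∈ (algebraMap K L).range := by
    intro x
    induction x using LaurentPolynomial.induction_on' with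
    | add p q hp hq => rw [map_add]; exact add_mem hp hq
    | C_mul_T n a =>
      rw [map_mul]
      refine mul_mem ?_ ?_
      · obtain ⟨a', ha'⟩ := h2 a
        exact ⟨a', ha'.symm⟩
      · rcases Int.eq_nat_or_neg n with ⟨i, rfl | rfl⟩
        · have e5 : (LaurentPolynomial.T (i : ℤ) : k[T;T⁻¹]) = LaurentPolynomial.T 1 ^ i := by
            rw [LaurentPolynomial.T_pow, mul_one]
          rw [e5, map_pow]
          have h6 : ψ (LaurentPolynomial.T 1) ∈ (algebraMap K L).range := ⟨u, h1.symm⟩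
          exact pow_mem h6 i
        · have e5 : (LaurentPolynomial.T (-(i : ℤ)) : k[T;T⁻¹]) = LaurentPolynomial.T (-1) ^ i := by
            rw [LaurentPolynomial.T_pow]
            congr 1
            ring
          rw [e5, map_pow, hinv]
          have h6 : (algebraMap K L u)⁻¹ ∈ (algebraMap K L).range := ⟨u⁻¹, map_inv₀ _ _⟩
          exact pow_mem h6 i
  let e : K ≃+* (algebraMap K L).range :=
    RingEquiv.ofBijective (algebraMap K L).rangeRestrict
      ⟨fun x y h => (algebraMap K L).injective (congrArg Subtype.val h), (algebraMap K L).rangeRestrict_surjective⟩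
  have he : ∀ y : (algebraMap K L).range, algebraMap K L (e.symm y) = y := fun y => by
    conv_rhs => rw [← e.apply_symm_apply y]
    rfl
  let ev : k[T;T⁻¹] →+* K := (e.symm : (algebraMap K L).range →+* K).comp (ψ.codRestrict _ hr)
  have hev : ∀ x, ψ x = algebraMap K L (ev x) := fun x => (he ⟨ψ x, hr x⟩).symm
  refine ⟨ev, hev, ?_, ?_⟩
  · exact (algebraMap K L).injective ((hev _).symm.trans h1)
  · refine (algebraMap K L).injective ((hev _).symm.trans ?_)
    rw [hinv, map_inv₀]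

/-- The global conclusion. -/
theorem mem_diff {K L : Type} [Field K] [NumberField K] [Field L] [NumberField L] [Algebra K L]
    {ι : Type*} [Fintype ι] (ρ : L) (x y : ι → L)
    (hid : ∀ z : L, ρ * z = ∑ i, algebraMap K L (Algebra.trace K L (z * x i)) * y i)
    (N J₁ J₂ : ℕ) (hx : ∀ i, IsIntegral ℤ ((N : L) ^ J₁ * x i)) (hy : ∀ i, IsIntegral ℤ ((N : L) ^ J₂ * y i)) :
    ∃ d ∈ differentIdeal (𝓞 K) (𝓞 L), (d : L) = (N : L) ^ (J₁ + J₂) * ρ := by
  have ha : ∀ i, ∃ a : 𝓞 L, (a : L) = (N : L) ^ J₁ * x i := fun i => ⟨⟨_, hx i⟩, rfl⟩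
  have hc : ∀ i, ∃ a : 𝓞 L, (a : L) = (N : L) ^ J₂ * y i := fun i => ⟨⟨_, hy i⟩, rfl⟩
  choose a ha using ha
  choose c hc using hc
  have key : ∀ z ∈ Submodule.traceDual (𝓞 K) K (1 : Submodule (𝓞 L) L),
      ((N : L) ^ (J₁ + J₂) * ρ) * z ∈ (1 : Submodule (𝓞 L) L) := by
    intro z hz
    rw [Submodule.mem_traceDual] at hz
    have h1 : ∀ i, ∃ n : 𝓞 K, algebraMap (𝓞 K) K n = Algebra.trace K L (z * (a i : L)) := by
      intro i
      obtain ⟨n, hn⟩ := hz (a i : L) (Submodule.mem_one.2 ⟨a i, rfl⟩)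
      exact ⟨n, hn⟩
    choose n hn using h1
    rw [Submodule.mem_one]
    refine ⟨∑ i, algebraMap (𝓞 K) (𝓞 L) (n i) * c i, ?_⟩
    rw [map_sum]
    have e1 : ((N : L) ^ (J₁ + J₂) * ρ) * z =
        ∑ i, (N : L) ^ J₁ * algebraMap K L (Algebra.trace K L (z * x i)) * ((N : L) ^ J₂ * y i) := by
      rw [mul_assoc, hid, Finset.mul_sum]
      refine Finset.sum_congr rfl fun i _ => ?_
      ring
    rw [e1]
    refine Finset.sum_congr rfl fun i _ => ?_
    rw [map_mul, ← hc]
    congr 1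
    have e2 : (N : L) ^ J₁ = algebraMap K L ((N : K) ^ J₁) := by rw [map_pow, map_natCast]
    rw [← IsScalarTower.algebraMap_apply (𝓞 K) (𝓞 L) L, IsScalarTower.algebraMap_apply (𝓞 K) K L, hn, ha, e2,
      ← map_mul]
    congr 1
    rw [mul_left_comm, ← Algebra.smul_def, map_smul, smul_eq_mul]
  have h2 : (N : L) ^ (J₁ + J₂) * ρ ∈
      (1 / Submodule.traceDual (𝓞 K) K (1 : Submodule (𝓞 L) L) : Submodule (𝓞 L) L) := by
    rw [Submodule.mem_div_iff_forall_mul_mem]
    exact key
  rw [← coeSubmodule_differentIdeal (𝓞 K) K (𝓞 L)] at h2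
  obtain ⟨d, hd, hd'⟩ := h2
  exact ⟨d, hd, hd'⟩

attribute [local instance] FractionRing.liftAlgebra FractionRing.isScalarTower_liftAlgebra

theorem stM2 : KS6_16.VJ.StM2 := by
  classical
  intro k _ _ B _ _ _ _ _ δ hδ
  have hpid : IsPrincipalIdealRing k[T;T⁻¹] := pid_laurent k
  have : CharZero k[T;T⁻¹] := charZero_of_injective_algebraMap (RingHom.injective (algebraMap k k[T;T⁻¹]))
  let b := Module.Free.chooseBasis k[T;T⁻¹] B
  have hsep : Algebra.IsSeparable (FractionRing k[T;T⁻¹]) (FractionRing B) := by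
    have : CharZero (FractionRing k[T;T⁻¹]) := IsFractionRing.charZero k[T;T⁻¹]
    have : FiniteDimensional (FractionRing k[T;T⁻¹]) (FractionRing B) :=
      .of_isLocalization k[T;T⁻¹] B k[T;T⁻¹]⁰
    infer_instance
  obtain ⟨g, hg⟩ := exists_dual (FractionRing k[T;T⁻¹]) (FractionRing B) b δ hδ
  have hintB : ∀ a : B, IsIntegral k[T;T⁻¹] a := fun a => Algebra.IsIntegral.isIntegral a
  choose Mb hMb hMb' using fun i => exists_nint (b i) (hintB (b i))
  choose Mg hMg hMg' using fun i => exists_nint (g i) (hintB (g i))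
  refine ⟨(∏ i, Mb i) * ∏ i, Mg i, Nat.mul_pos (Finset.prod_pos fun i _ => hMb _) (Finset.prod_pos fun i _ => hMg _), ?_⟩
  intro N hN hd L _ _ K _ _ _ φ u h1 h2 hgen hu hu'
  by_cases hφ0 : φ δ = 0
  · exact ⟨0, 0, Ideal.zero_mem _, by rw [hφ0, mul_zero]; rfl⟩
  obtain ⟨ev, hev, hev1, hev2⟩ := exists_ev φ u h1 h2
  let iRK : Algebra k[T;T⁻¹] K := ev.toAlgebra
  have hb : ∀ i ∈ Finset.univ, NInt N (φ (b i)) := fun i _ =>
    hMb' i N hN (((Finset.dvd_prod_of_mem Mb (Finset.mem_univ i)).trans (Dvd.intro _ rfl)).trans hd) K L ev φ hev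
      (by rw [hev1]; exact hu) (by rw [hev2]; exact hu')
  have hg' : ∀ i ∈ Finset.univ, NInt N (φ (g i)) := fun i _ =>
    hMg' i N hN (((Finset.dvd_prod_of_mem Mg (Finset.mem_univ i)).trans (Dvd.intro_left _ rfl)).trans hd) K L ev φ hev
      (by rw [hev1]; exact hu) (by rw [hev2]; exact hu')
  obtain ⟨J₁, hJ₁⟩ := exists_pow_fin Finset.univ (fun i => φ (b i)) hb
  obtain ⟨J₂, hJ₂⟩ := exists_pow_fin Finset.univ (fun i => φ (g i)) hg'
  obtain ⟨d, hd, hd'⟩ := mem_diff (φ δ) (fun i => φ (b i)) (fun i => φ (g i))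
    (spec' b δ g hg φ hev hgen hφ0) N J₁ J₂ (fun i => hJ₁ i (Finset.mem_univ i)) (fun i => hJ₂ i (Finset.mem_univ i))
  exact ⟨J₁ + J₂, d, hd, hd'⟩

end Pool.Agent.KS6_8.VJ
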