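import Mathlib
import Pool.Agent.KS6_8.VJ.DISC
import Pool.Agent.KS6_12.Disc.Tower
import Pool.Agent.KS6_16.VJ.Defs

/-!
StD and StM3b.
-/

set_option autoImplicit false

namespace Pool.Agent.KS6_8.VJ

open nonZeroDivisors NumberField IsDedekindDomain

theorem abs_discr_eq (L : Type) [Field L] [NumberField L] : |(discr L : ℝ)| = ((discr L).natAbs : ℝ) := by
  rw [Nat.cast_natAbs, Int.cast_abs]

theorem stM3b : KS6_16.VJ.StM3b := by
  intro K L _ _ _ _ _
  rw [abs_discr_eq, abs_discr_eq]
  exact Pool.Agent.KS6_12.Disc.log_discr_mono K L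

theorem mk_natCast_eq_one_iff {L : Type} [Field L] [NumberField L] (v : HeightOneSpectrum (𝓞 L)) (p : ℕ) :
    FinitePlace.mk v (p : L) = 1 ↔ ((p : ℕ) : 𝓞 L) ∉ v.asIdeal := by
  have h := FinitePlace.norm_eq_one_iff_notMem L v ((p : ℕ) : 𝓞 L)
  rwa [map_natCast] at h

theorem stD : KS6_16.VJ.StD := by
  classical
  intro n T A₁ hT
  refine ⟨n * |A₁| + (n * (n + 1) : ℕ) * (n * ∑ p ∈ T, Real.log p), ?_⟩
  intro K L _ _ _ _ _ hn hA₁ lam hlam hlam0 h
  set D := differentIdeal (𝓞 K) (𝓞 L) with hD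
  have hD0 : D ≠ ⊥ := differentIdeal_ne_bot
  set F := (finite_mult D hD0).toFinset with hF
  have hN : ∀ v : HeightOneSpectrum (𝓞 L), (1 : ℝ) < Ideal.absNorm v.asIdeal := fun v => by
    exact_mod_cast NumberField.HeightOneSpectrum.one_lt_absNorm v
  have h1 : Real.log |(discr L : ℝ)| = Real.log (Ideal.absNorm D) + Module.finrank K L * Real.log |(discr K : ℝ)| := by
    rw [abs_discr_eq, abs_discr_eq]
    exact Pool.Agent.KS6_12.Disc.log_discr_eq K L
  have hKn : (Module.finrank K L : ℝ) ≤ n := by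
    have h2 : Module.finrank ℚ K * Module.finrank K L = Module.finrank ℚ L := Module.finrank_mul_finrank ℚ K L
    have h3 : 0 < Module.finrank ℚ K := Module.finrank_pos
    have h4 : Module.finrank K L ≤ Module.finrank ℚ L := by rw [← h2]; exact Nat.le_mul_of_pos_left _ h3
    exact_mod_cast h4.trans hn
  have h2 : (Module.finrank K L : ℝ) * Real.log |(discr K : ℝ)| ≤ n * |A₁| := by
    calc (Module.finrank K L : ℝ) * Real.log |(discr K : ℝ)| ≤ Module.finrank K L * |A₁| :=
          mul_le_mul_of_nonneg_left (hA₁.trans (le_abs_self _)) (Nat.cast_nonneg _)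
      _ ≤ n * |A₁| := mul_le_mul_of_nonneg_right hKn (abs_nonneg _)
  have hloc : ∀ v : HeightOneSpectrum (𝓞 L), ¬ Above T v →
      (multiplicity v.asIdeal D : ℝ) * Real.log (Ideal.absNorm v.asIdeal) ≤ lam (FinitePlace.mk v) := by
    intro v hv
    have h3 := h (FinitePlace.mk v) (fun p hp => (mk_natCast_eq_one_iff v p).2 fun hm => hv ⟨p, hp, hm⟩)
      (multiplicity v.asIdeal D) (by
        rw [FinitePlace.maximalIdeal_mk]
        exact Ideal.dvd_iff_le.1 (pow_multiplicity_dvd _ _))
    rwa [FinitePlace.maximalIdeal_mk] at h3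
  have h7 : Real.log (Ideal.absNorm D) =
      ∑ v ∈ F with Above T v, (multiplicity v.asIdeal D : ℝ) * Real.log (Ideal.absNorm v.asIdeal) +
      ∑ v ∈ F with ¬ Above T v, (multiplicity v.asIdeal D : ℝ) * Real.log (Ideal.absNorm v.asIdeal) := by
    rw [Finset.sum_filter_add_sum_filter_not]
    exact log_absNorm D hD0
  have hinj : Function.Injective (FinitePlace.mk : HeightOneSpectrum (𝓞 L) → FinitePlace L) :=
    fun v w hvw => FinitePlace.mk_eq_iff.1 hvw
  have h8 : ∑ v ∈ F with ¬ Above T v, (multiplicity v.asIdeal D : ℝ) * Real.log (Ideal.absNorm v.asIdeal) ≤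
      ∑ᶠ w ∈ {w : FinitePlace L | ∀ p ∈ T, w ((p : ℕ) : L) = 1}, lam w := by
    rw [finsum_mem_def, finsum_eq_sum_of_support_subset (s := hlam.toFinset ∪ (F.filter fun v => ¬ Above T v).image FinitePlace.mk) _ (by
      intro w hw
      rw [Finset.coe_union, Set.Finite.coe_toFinset]
      refine Or.inl fun h0 => hw ?_
      by_cases hS : w ∈ {w : FinitePlace L | ∀ p ∈ T, w ((p : ℕ) : L) = 1}
      · rw [Set.indicator_of_mem hS]
        exact h0
      · rw [Set.indicator_of_notMem hS])]
    calc ∑ v ∈ F with ¬ Above T v, (multiplicity v.asIdeal D : ℝ) * Real.log (Ideal.absNorm v.asIdeal)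
        ≤ ∑ v ∈ F with ¬ Above T v, Set.indicator {w : FinitePlace L | ∀ p ∈ T, w ((p : ℕ) : L) = 1} lam (FinitePlace.mk v) := by
          refine Finset.sum_le_sum fun v hv => ?_
          have hv' := (Finset.mem_filter.1 hv).2
          rw [Set.indicator_of_mem]
          · exact hloc v hv'
          · exact fun p hp => (mk_natCast_eq_one_iff v p).2 fun hm => hv' ⟨p, hp, hm⟩
      _ = ∑ w ∈ (F.filter fun v => ¬ Above T v).image FinitePlace.mk,
            Set.indicator {w : FinitePlace L | ∀ p ∈ T, w ((p : ℕ) : L) = 1} lam w := by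
          rw [Finset.sum_image fun v _ w _ hvw => hinj hvw]
      _ ≤ _ := Finset.sum_le_sum_of_subset_of_nonneg Finset.subset_union_right fun w _ _ =>
          Set.indicator_nonneg (fun w _ => hlam0 w) w
  have h9 : ∑ v ∈ F with Above T v, (multiplicity v.asIdeal D : ℝ) * Real.log (Ideal.absNorm v.asIdeal) ≤
      (n * (n + 1) : ℕ) * (n * ∑ p ∈ T, Real.log p) := by
    have hm : ∀ v : HeightOneSpectrum (𝓞 L), Above T v → multiplicity v.asIdeal D ≤ n * (n + 1) := by
      rintro v ⟨p, hp, hpv⟩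
      by_contra hlt
      push Not at hlt
      apply Pool.Agent.KS6_12.Disc.m3_rel K L n (hT p hp) hn v hpv
      refine (pow_dvd_pow _ ?_).trans (pow_multiplicity_dvd _ _)
      refine le_trans ?_ hlt.le
      exact Nat.mul_le_mul_left n (Nat.succ_le_succ (Nat.log_le_self p n))
    calc ∑ v ∈ F with Above T v, (multiplicity v.asIdeal D : ℝ) * Real.log (Ideal.absNorm v.asIdeal)
        ≤ ∑ v ∈ F with Above T v, ((n * (n + 1) : ℕ) : ℝ) * Real.log (Ideal.absNorm v.asIdeal) := by
          refine Finset.sum_le_sum fun v hv => ?_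
          exact mul_le_mul_of_nonneg_right (by exact_mod_cast hm v (Finset.mem_filter.1 hv).2)
            (Real.log_nonneg (hN v).le)
      _ = ((n * (n + 1) : ℕ) : ℝ) * ∑ v ∈ F with Above T v, Real.log (Ideal.absNorm v.asIdeal) := by rw [Finset.mul_sum]
      _ ≤ ((n * (n + 1) : ℕ) : ℝ) * (n * ∑ p ∈ T, Real.log p) := by
          refine mul_le_mul_of_nonneg_left ?_ (Nat.cast_nonneg _)
          rw [Finset.mul_sum]
          calc ∑ v ∈ F with Above T v, Real.log (Ideal.absNorm v.asIdeal)
              ≤ ∑ v ∈ T.biUnion (fun p => F.filter fun v => ((p : ℕ) : 𝓞 L) ∈ v.asIdeal),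
                  Real.log (Ideal.absNorm v.asIdeal) := by
                refine Finset.sum_le_sum_of_subset_of_nonneg ?_ fun v _ _ => Real.log_nonneg (hN v).le
                intro v hv
                obtain ⟨hvF, p, hp, hpv⟩ := Finset.mem_filter.1 hv
                exact Finset.mem_biUnion.2 ⟨p, hp, Finset.mem_filter.2 ⟨hvF, hpv⟩⟩
            _ ≤ ∑ p ∈ T, ∑ v ∈ F.filter (fun v => ((p : ℕ) : 𝓞 L) ∈ v.asIdeal), Real.log (Ideal.absNorm v.asIdeal) := by
                exact sum_biUnion_le' _ _ _ fun v => Real.log_nonneg (hN v).le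
            _ ≤ ∑ p ∈ T, (n : ℝ) * Real.log p := Finset.sum_le_sum fun p hp => by
                refine (sum_above_le (hT p hp).ne_zero _ fun v hv => (Finset.mem_filter.1 hv).2).trans ?_
                exact mul_le_mul_of_nonneg_right (by exact_mod_cast hn)
                  (Real.log_nonneg (by exact_mod_cast (hT p hp).one_lt.le))
  rw [h1, h7]
  linarith

end Pool.Agent.KS6_8.VJ
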