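import Mathlib

/-!
Uniform bounds for constants at all places of all extensions.
-/

set_option autoImplicit false

namespace Pool.Agent.KS6_8.VJ

open NumberField IsDedekindDomain
open scoped nonZeroDivisors

theorem exists_nat_mul {k : Type} [Field k] [NumberField k] (a : k) : ∃ m : ℕ, 0 < m ∧ IsIntegral ℤ ((m : k) * a) := by
  obtain ⟨⟨x, s⟩, hx⟩ := IsLocalization.surj (Algebra.algebraMapSubmonoid (𝓞 k) ℤ⁰) a
  obtain ⟨z, hz, hzs⟩ : ∃ z, z ∈ ℤ⁰ ∧ algebraMap ℤ (𝓞 k) z = s := s.2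
  refine ⟨z.natAbs, Int.natAbs_pos.2 (nonZeroDivisors.ne_zero hz), ?_⟩
  have h1 : IsIntegral ℤ ((z : k) * a) := by
    have e1 : (z : k) * a = (x : k) := by
      have e2 : algebraMap (𝓞 k) k (s : 𝓞 k) = (z : k) := by
        rw [← hzs]
        simp
      rw [← e2, mul_comm]
      exact hx
    rw [e1]
    exact x.isIntegral_coe
  rcases Int.natAbs_eq z with h | h
  · have e3 : ((z.natAbs : ℕ) : k) = (z : k) := by
      conv_rhs => rw [h]
      simp
    rw [e3]
    exact h1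
  · have e3 : ((z.natAbs : ℕ) : k) = -(z : k) := by
      conv_rhs => rw [h]
      simp
    rw [e3, neg_mul]
    exact h1.neg

theorem finitePlace_int_le {L : Type} [Field L] [NumberField L] (w : FinitePlace L) (x : L) (hx : IsIntegral ℤ x) :
    w x ≤ 1 := by
  have h := FinitePlace.norm_le_one L w.maximalIdeal (⟨x, hx⟩ : 𝓞 L)
  rw [← w.mk_maximalIdeal]
  exact h

theorem finitePlace_nat_pos {L : Type} [Field L] [NumberField L] (w : FinitePlace L) (d : ℕ) (hd : 0 < d) :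
    0 < w (d : L) := FinitePlace.pos_iff.2 (by exact_mod_cast hd.ne')

theorem finitePlace_nat_le {L : Type} [Field L] [NumberField L] (w : FinitePlace L) (d : ℕ) : w (d : L) ≤ 1 :=
  finitePlace_int_le w _ (by
    have := isIntegral_algebraMap (R := ℤ) (A := L) (x := (d : ℤ))
    simpa using this)

theorem finitePlace_isNonarchimedean {L : Type} [Field L] [NumberField L] (w : FinitePlace L) :
    IsNonarchimedean w.1 := fun x y => FinitePlace.add_le w x y

theorem finitePlace_nat_inv_le {L : Type} [Field L] [NumberField L] (w : FinitePlace L) (d : ℕ) (hd : 0 < d) :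
    (w (d : L))⁻¹ ≤ (d : ℝ) ^ Module.finrank ℚ L := by
  classical
  have hd0 : ((d : ℕ) : L) ≠ 0 := by exact_mod_cast hd.ne'
  have h1 := FinitePlace.prod_eq_inv_abs_norm hd0
  have h2 : |Algebra.norm ℚ ((d : ℕ) : L)| = (d : ℚ) ^ Module.finrank ℚ L := by
    have h3 : ((d : ℕ) : L) = algebraMap ℚ L (d : ℚ) := by simp
    rw [h3, Algebra.norm_algebraMap, abs_pow, Nat.abs_cast]
  have hfin : (Function.mulSupport fun w : FinitePlace L => w ((d : ℕ) : L)).Finite := FinitePlace.hasFiniteMulSupport hd0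
  have h4 : ∏ᶠ w : FinitePlace L, w ((d : ℕ) : L) ≤ w ((d : ℕ) : L) := by
    rw [finprod_eq_prod_of_mulSupport_subset (s := insert w hfin.toFinset) _ (by
      intro v hv
      rw [Finset.coe_insert, Set.Finite.coe_toFinset]
      exact Or.inr hv)]
    rw [← Finset.mul_prod_erase _ _ (Finset.mem_insert_self w _)]
    exact mul_le_of_le_one_right (finitePlace_nat_pos w d hd).le
      (Finset.prod_le_one (fun v _ => (finitePlace_nat_pos v d hd).le) fun v _ => finitePlace_nat_le v d)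
  rw [h1, h2] at h4
  have h5 : ((((d : ℚ) ^ Module.finrank ℚ L)⁻¹ : ℚ) : ℝ) = ((d : ℝ) ^ Module.finrank ℚ L)⁻¹ := by push_cast; rfl
  rw [h5] at h4
  exact inv_le_of_inv_le₀ (by positivity) h4

/-- **Constants.** -/
theorem exists_const {k : Type} [Field k] [NumberField k] (T : Finset k) :
    ∃ (d : ℕ) (C : ℝ), 0 < d ∧ 1 ≤ C ∧ ∀ (L : Type) [Field L] [NumberField L] (σ : k →+* L), ∀ c ∈ T,
      IsIntegral ℤ ((d : L) * σ c) ∧ (∀ w : FinitePlace L, w (σ c) ≤ (w (d : L))⁻¹) ∧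
        ∀ w : InfinitePlace L, w (σ c) ≤ C := by
  classical
  choose m hm hm' using fun a : k => exists_nat_mul a
  refine ⟨∏ c ∈ T, m c, 1 + ∑ c ∈ T, ∑ τ : k →+* ℂ, ‖τ c‖, Finset.prod_pos fun c _ => hm c, ?_, ?_⟩
  · have : 0 ≤ ∑ c ∈ T, ∑ τ : k →+* ℂ, ‖τ c‖ := by positivity
    linarith
  intro L _ _ σ c hc
  have hint : IsIntegral ℤ (((∏ c ∈ T, m c : ℕ) : L) * σ c) := by
    have h1 : IsIntegral ℤ (((∏ c ∈ T, m c : ℕ) : k) * c) := by
      rw [← Finset.mul_prod_erase _ _ hc, Nat.cast_mul, mul_right_comm]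
      refine (hm' c).mul ?_
      have := isIntegral_algebraMap (R := ℤ) (A := k) (x := ((∏ c ∈ T.erase c, m c : ℕ) : ℤ))
      simpa using this
    have h2 := map_isIntegral_int σ h1
    rwa [map_mul, map_natCast] at h2
  refine ⟨hint, fun w => ?_, fun w => ?_⟩
  · have h3 := finitePlace_int_le w _ hint
    rw [map_mul] at h3
    have h4 := finitePlace_nat_pos w (∏ c ∈ T, m c) (Finset.prod_pos fun c _ => hm c)
    rw [← one_div, le_div_iff₀ h4, mul_comm]
    exact h3
  · have h5 : w (σ c) = ‖(w.embedding.comp σ) c‖ := by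
      rw [← InfinitePlace.norm_embedding_eq w (σ c)]
      rfl
    rw [h5]
    have h6 : ‖(w.embedding.comp σ) c‖ ≤ ∑ τ : k →+* ℂ, ‖τ c‖ :=
      Finset.single_le_sum (f := fun τ : k →+* ℂ => ‖τ c‖) (fun _ _ => norm_nonneg _) (Finset.mem_univ _)
    have h7 : ∑ τ : k →+* ℂ, ‖τ c‖ ≤ ∑ c ∈ T, ∑ τ : k →+* ℂ, ‖τ c‖ :=
      Finset.single_le_sum (f := fun c => ∑ τ : k →+* ℂ, ‖τ c‖) (fun _ _ => by positivity) hc
    linarith

end Pool.Agent.KS6_8.VJ
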