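import Pool.Agent.KS6_16.VJ.Defs3
import Pool.Agent.KS6_77.VJ.Exi

/-!
# MP_e44225_nt: StEC (`Y = X`)
-/

namespace Pool.Agent.KS6_8.VJ

open Pool.Agent.KS6_77.VJ KS6_16.VJ IsDedekindDomain

variable {k K : Type} [Field k] [CharZero k] [Field K] [Algebra k K]

/-- the zeros of a nonconstant function are finitely many -/
theorem finite_zeros (h : CF k K) (t : K) (ht : Transcendental k t) :
    {P : ValuationSubring K | IsPlace k P ∧ P.valuation t < 1}.Finite := by
  have := model_dedekind h t ht
  have := model_frac h t ht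
  let A := integralClosure (Algebra.adjoin k {t}) K
  have htint : IsIntegral (Algebra.adjoin k {t}) t := by
    have : t = algebraMap (Algebra.adjoin k {t}) K
        ⟨t, Algebra.subset_adjoin (Set.mem_singleton t)⟩ := rfl
    rw [this]
    exact isIntegral_algebraMap
  let tA : A := ⟨t, htint⟩
  have htA : tA ≠ 0 := by
    intro h0
    have h1 : t = 0 := congrArg Subtype.val h0
    rw [h1] at ht
    exact ht isAlgebraic_zero
  have hfin : {v : HeightOneSpectrum A | v.asIdeal ∣ Ideal.span {tA}}.Finite :=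
    Ideal.finite_factors (by
      rw [Ne, Ideal.zero_eq_bot, Ideal.span_singleton_eq_bot]
      exact htA)
  refine (hfin.image (fun v => (v.valuation K).valuationSubring)).subset ?_
  rintro P ⟨hP, hPt⟩
  have htP : t ∈ P := val_le_one_iff.mp hPt.le
  obtain ⟨v, hv1, hv2⟩ := exists_center (A := A) P
    (fun a => integral_mem hP.1 (S := {t}) (by rintro x rfl; exact htP)
      (show IsIntegral (Algebra.adjoin k {t}) (a : K) from a.2)) hP.2
  refine ⟨v, ?_, hv1.symm⟩
  rw [Set.mem_ofPred_eq, Ideal.dvd_span_singleton]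
  exact (hv2 tA).mpr hPt

/-- a place at which `t - 1` vanishes -/
theorem exists_one (h : CF k K) (t : K) (ht : Transcendental k t) :
    ∃ P : ValuationSubring K, IsPlace k P ∧ P.valuation (t - 1) < 1 := by
  have := model_dedekind h t ht
  have := model_frac h t ht
  let R := Algebra.adjoin k {t}
  let A := integralClosure (Algebra.adjoin k {t}) K
  let tR : R := ⟨t, Algebra.subset_adjoin (Set.mem_singleton t)⟩
  have hnu : tR - 1 ∈ nonunits R := by
    rintro ⟨u, hu⟩
    have h1 : (tR - 1) * ((u⁻¹ : Rˣ) : R) = 1 := by rw [← hu]; exact u.mul_inv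
    have h2 : (t - 1) * (((u⁻¹ : Rˣ) : R) : K) = 1 := congrArg Subtype.val h1
    have h3 : (((u⁻¹ : Rˣ) : R) : K) ∈ Algebra.adjoin k {t} := ((u⁻¹ : Rˣ) : R).2
    rw [Algebra.adjoin_singleton_eq_range_aeval] at h3
    obtain ⟨g, hg⟩ := h3
    have hg' : Polynomial.aeval t g = (((u⁻¹ : Rˣ) : R) : K) := hg
    rw [← hg'] at h2
    have h4 : Polynomial.aeval t ((Polynomial.X - 1) * g : Polynomial k)
        = Polynomial.aeval t (1 : Polynomial k) := by
      rw [map_mul, map_sub, Polynomial.aeval_X, map_one]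
      exact h2
    have h5 : (Polynomial.X - 1) * g = 1 := transcendental_iff_injective.1 ht h4
    have h6 := congrArg (Polynomial.eval 1) h5
    simp at h6
  obtain ⟨M, hM, hMt⟩ := exists_max_ideal_of_mem_nonunits hnu
  have : M.IsMaximal := hM
  obtain ⟨Q, hQ, hQM⟩ := Ideal.exists_ideal_over_maximal_of_isIntegral (S := A) M (by
    intro r hr
    have h1 : algebraMap R A r = 0 := hr
    have h3 : (r : K) = ((0 : A) : K) := congrArg (fun a : A => (a : K)) h1
    have h2 : r = 0 := Subtype.ext h3
    rw [h2]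
    exact M.zero_mem)
  have hmemQ : algebraMap R A (tR - 1) ∈ Q := by
    rw [← Ideal.mem_comap, hQM]
    exact hMt
  have hne : algebraMap R A (tR - 1) ≠ 0 := by
    intro h0
    have h1 : t - 1 = 0 := congrArg Subtype.val h0
    have h2 : t = algebraMap k K 1 := by rw [map_one]; exact sub_eq_zero.1 h1
    rw [h2] at ht
    exact ht (isAlgebraic_algebraMap _)
  have hQ0 : Q ≠ ⊥ := by
    rintro rfl
    exact hne (Ideal.mem_bot.1 hmemQ)
  let v : HeightOneSpectrum A := ⟨Q, hQ.isPrime, hQ0⟩
  have hval : ∀ x : K, (v.valuation K).valuationSubring.valuation x ≤ 1 ↔ v.valuation K x ≤ 1 := by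
    intro x
    rw [val_le_one_iff, Valuation.mem_valuationSubring_iff]
  have hlt : ∀ x : K, (v.valuation K).valuationSubring.valuation x < 1 ↔ v.valuation K x < 1 := by
    intro x
    have h1 := Valuation.isEquiv_valuation_valuationSubring (v.valuation K)
    exact (h1.lt_one_iff_lt_one (x := x)).symm
  have hv1 : v.valuation K (t - 1) < 1 := by
    have h1 : (t - 1 : K) = algebraMap A K (algebraMap R A (tR - 1)) := rfl
    rw [h1, HeightOneSpectrum.valuation_lt_one_iff_mem]
    exact hmemQ
  refine ⟨(v.valuation K).valuationSubring, ⟨fun a => ?_, ?_⟩, (hlt _).2 hv1⟩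
  · rw [Valuation.mem_valuationSubring_iff]
    have h1 : algebraMap k K a = algebraMap A K (algebraMap k A a) := rfl
    rw [h1]
    exact HeightOneSpectrum.valuation_le_one v _
  · intro htop
    have h1 : (t - 1)⁻¹ ∈ (v.valuation K).valuationSubring := by rw [htop]; trivial
    rw [Valuation.mem_valuationSubring_iff, map_inv₀] at h1
    have h2 : v.valuation K (t - 1) ≠ 0 := by
      rw [Valuation.ne_zero_iff]
      intro h0
      exact hne (Subtype.ext h0)
    have h3 : 1 < (v.valuation K (t - 1))⁻¹ := (one_lt_inv₀ (zero_lt_iff.2 h2)).2 hv1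
    exact absurd h1 (not_le.2 h3)

/-- **EC.** -/
theorem stEC : StEC := by
  intro k K _ _ _ _ hfun t ht
  obtain ⟨f, hf, hfin⟩ := hfun
  have hK : CF k K := CF.of_gen f hf hfin
  have htinv : Transcendental k t⁻¹ := fun h => ht (by simpa using h.inv)
  refine ⟨?_, ?_, ?_⟩
  · refine ((finite_zeros hK t ht).union (finite_zeros hK t⁻¹ htinv)).subset ?_
    rintro P ⟨hP, h | h⟩
    · right
      refine ⟨hP, ?_⟩
      rw [map_inv₀]
      have h1 : 1 < P.valuation t := by
        rw [← not_le, val_le_one_iff]; exact h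
      exact (inv_lt_one₀ (zero_lt_one.trans h1)).2 h1
    · left
      refine ⟨hP, ?_⟩
      have h1 : 1 < P.valuation t⁻¹ := by
        rw [← not_le, val_le_one_iff]; exact h
      have h2 := (inv_lt_one₀ (zero_lt_one.trans h1)).2 h1
      rwa [map_inv₀, inv_inv] at h2
  · obtain ⟨P, hP, h1⟩ := exists_one hK t ht
    have h2 : P.valuation t = 1 := by
      have h3 : t = 1 + (t - 1) := by ring
      rw [h3]
      have := Valuation.map_add_eq_of_lt_right P.valuation (x := t - 1) (y := 1)
        (by rw [map_one]; exact h1)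
      rw [add_comm, this, map_one]
    refine ⟨P, hP, val_le_one_iff.1 h2.le, ?_⟩
    rw [← val_le_one_iff, map_inv₀, h2, inv_one]
  · intro 𝒟 h𝒟
    refine ⟨⟨ht, fun O hO => ⟨fun h => ?_, fun _ _ => ?_⟩⟩, ?_⟩
    · have h1 : O.comap (algebraMap K K) = O := by
        ext x; rfl
      rw [h1]
      exact h𝒟 ⟨hO, h⟩
    · obtain ⟨π, -, hπ, -⟩ := exists_unif hK hO
      exact ⟨π, hπ⟩
    · rintro ⟨P₁, h1, h2, h3, h4⟩
      refine ⟨P₁, h2, h3, h4, Or.inl ?_⟩
      have h5 : P₁.comap (algebraMap K K) = P₁ := by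
        ext x; rfl
      rwa [h5]

end Pool.Agent.KS6_8.VJ
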