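import Mathlib

/-!
Heights of roots and of values of polynomials.
-/

set_option autoImplicit false

namespace Pool.Agent.KS6_8.VJ

open Height Height.AdmissibleAbsValues Polynomial

section

variable {K : Type} [Field K] [AdmissibleAbsValues K]

/-- the height of a tuple is at most the sum of the heights -/
theorem logHeight_le_sum {ι : Type} [Fintype ι] (x : ι → K) : logHeight x ≤ ∑ i, logHeight₁ (x i) := by
  classical
  have h1 := logHeight_fun_prod_eq (K := K) (α := ι) (ι := fun _ => Fin 2) (x := fun i => ![x i, 1])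
    (fun i h => by simpa using congrFun h 1)
  have h2 := logHeight_comp_le (K := K) (fun i : ι => (fun a : ι => if a = i then (0 : Fin 2) else 1))
    (fun I : ι → Fin 2 => ∏ a, ![x a, 1] (I a))
  have h3 : (fun I : ι → Fin 2 => ∏ a, ![x a, 1] (I a)) ∘
      (fun i : ι => (fun a : ι => if a = i then (0 : Fin 2) else 1)) = x := by
    funext i
    show ∏ a, ![x a, 1] (if a = i then (0 : Fin 2) else 1) = x i
    rw [Finset.prod_eq_single i]
    · simp
    · intro b _ hb
      simp [hb]
    · intro h
      exact absurd (Finset.mem_univ i) h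
  rw [h3, h1] at h2
  refine h2.trans (le_of_eq (Finset.sum_congr rfl fun i _ => ?_))
  rw [logHeight₁_eq_logHeight]

/-- the height of the powers -/
theorem logHeight_pows (x : K) (d : ℕ) : logHeight (fun i : Fin (d + 1) => x ^ (i : ℕ)) = d * logHeight₁ x := by
  classical
  have h1 := logHeight_fun_prod_eq (K := K) (α := Fin d) (ι := fun _ => Fin 2) (x := fun _ => ![x, 1])
    (fun i h => by simpa using congrFun h 1)
  have h1' : ∑ _a : Fin d, logHeight ![x, 1] = d * logHeight₁ x := by
    rw [Finset.sum_const, Finset.card_univ, Fintype.card_fin, nsmul_eq_mul, logHeight₁_eq_logHeight]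
  rw [h1'] at h1
  rw [← h1]
  have hX : ∀ I : Fin d → Fin 2, ∏ a, ![x, 1] (I a) = x ^ (Finset.univ.filter fun a => I a = 0).card := by
    intro I
    rw [← Finset.prod_const, Finset.prod_filter]
    refine Finset.prod_congr rfl fun a _ => ?_
    split_ifs with h
    · rw [h]; rfl
    · have : I a = 1 := by omega
      rw [this]; rfl
  apply le_antisymm
  · have h2 := logHeight_comp_le (K := K) (fun i : Fin (d + 1) => (fun a : Fin d => if (a : ℕ) < i then (0 : Fin 2) else 1))
      (fun I : Fin d → Fin 2 => ∏ a, ![x, 1] (I a))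
    refine le_trans (le_of_eq ?_) h2
    congr 1
    funext i
    show x ^ (i : ℕ) = ∏ a : Fin d, ![x, 1] (if (a : ℕ) < i then (0 : Fin 2) else 1)
    rw [hX]
    congr 1
    have h3 : (Finset.univ.filter fun a : Fin d => (if (a : ℕ) < i then (0 : Fin 2) else 1) = 0) =
        Finset.univ.filter fun a : Fin d => (a : ℕ) < i := by
      ext a
      simp
    rw [h3, Fin.card_filter_val_lt]
    have := i.2
    omega
  · have h2 := logHeight_comp_le (K := K) (fun I : Fin d → Fin 2 =>
        (⟨(Finset.univ.filter fun a => I a = 0).card, by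
          have := Finset.card_filter_le (Finset.univ : Finset (Fin d)) (fun a => I a = 0)
          rw [Finset.card_univ, Fintype.card_fin] at this
          omega⟩ : Fin (d + 1)))
      (fun i : Fin (d + 1) => x ^ (i : ℕ))
    refine le_trans (le_of_eq ?_) h2
    congr 1
    funext I
    exact hX I

/-- the height of a root of a monic polynomial -/
theorem logHeight₁_root (p : K[X]) (hp : p.Monic) (x : K) (hx : p.eval x = 0) :
    logHeight₁ x ≤ totalWeight K * Real.log p.natDegree + ∑ i ∈ Finset.range p.natDegree, logHeight₁ (p.coeff i) := by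
  classical
  obtain ⟨e, he⟩ : ∃ e, p.natDegree = e + 1 := by
    rcases Nat.eq_zero_or_pos p.natDegree with h | h
    · rw [hp.natDegree_eq_zero.1 h, eval_one] at hx
      exact absurd hx one_ne_zero
    · exact ⟨p.natDegree - 1, by omega⟩
  let A : Fin (e + 2) × Fin (e + 1) → K := fun ji =>
    if (ji.1 : ℕ) = e + 1 then -p.coeff ji.2 else if (ji.1 : ℕ) = ji.2 then 1 else 0
  have h1 := logHeight_linearMap_apply_le A (fun i : Fin (e + 1) => x ^ (i : ℕ))
  have h2 : (fun j : Fin (e + 2) => ∑ i, A (j, i) * x ^ (i : ℕ)) = fun j : Fin (e + 2) => x ^ (j : ℕ) := by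
    funext j
    by_cases hj : (j : ℕ) = e + 1
    · have h3 : ∀ i : Fin (e + 1), A (j, i) * x ^ (i : ℕ) = -(p.coeff i * x ^ (i : ℕ)) := fun i => by
        simp only [A, hj, if_true]
        ring
      rw [Finset.sum_congr rfl fun i _ => h3 i, Finset.sum_neg_distrib,
        Fin.sum_univ_eq_sum_range (fun i => p.coeff i * x ^ i) (e + 1), hj]
      rw [eval_eq_sum_range, he, Finset.sum_range_succ, ← he, hp.coeff_natDegree, one_mul, he] at hx
      linear_combination -hx
    · have hj' : (j : ℕ) < e + 1 := by have := j.2; omega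
      rw [Finset.sum_eq_single (⟨j, hj'⟩ : Fin (e + 1))]
      · simp only [A, hj, if_false, if_true, one_mul]
      · intro b _ hb
        have : (j : ℕ) ≠ b := fun h => hb (Fin.ext h.symm)
        simp only [A, hj, this, if_false, zero_mul]
      · intro h
        exact absurd (Finset.mem_univ _) h
  rw [h2, logHeight_pows, logHeight_pows, Nat.card_fin] at h1
  have h4 : logHeight A ≤ ∑ i ∈ Finset.range (e + 1), logHeight₁ (p.coeff i) := by
    refine (logHeight_le_sum A).trans ?_
    rw [Fintype.sum_prod_type]
    have hz : ∀ j : Fin (e + 2), j ≠ Fin.last (e + 1) → ∑ i : Fin (e + 1), logHeight₁ (A (j, i)) = 0 := by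
      intro j hj
      have hj' : ¬ (j : ℕ) = e + 1 := fun h => hj (Fin.ext h)
      refine Finset.sum_eq_zero fun i _ => ?_
      simp only [A, hj', if_false]
      split_ifs
      · exact logHeight₁_one
      · exact logHeight₁_zero
    rw [Finset.sum_eq_single (Fin.last (e + 1)) (fun j _ hj => hz j hj) fun h => absurd (Finset.mem_univ _) h]
    have h5 : ∀ i : Fin (e + 1), logHeight₁ (A (Fin.last (e + 1), i)) = logHeight₁ (p.coeff i) := fun i => by
      simp only [A, Fin.val_last, if_true, logHeight₁_neg]
    rw [Finset.sum_congr rfl fun i _ => h5 i, Fin.sum_univ_eq_sum_range (fun i => logHeight₁ (p.coeff i)) (e + 1)]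
  rw [he]
  push_cast at h1 ⊢
  linarith

/-- the height of a value of a polynomial -/
theorem logHeight₁_eval (p : K[X]) (x : K) :
    logHeight₁ (p.eval x) ≤ totalWeight K * Real.log (p.natDegree + 1 : ℕ) +
      ∑ i ∈ Finset.range (p.natDegree + 1), (logHeight₁ (p.coeff i) + i * logHeight₁ x) := by
  rw [eval_eq_sum_range]
  refine (logHeight₁_sum_le _ _).trans ?_
  rw [Finset.card_range]
  refine add_le_add le_rfl (Finset.sum_le_sum fun i _ => ?_)
  refine (logHeight₁_mul_le _ _).trans ?_
  rw [logHeight₁_pow]

theorem logHeight₁_natCast_le (m : ℕ) : logHeight₁ (m : K) ≤ totalWeight K * Real.log m := by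
  have h := logHeight₁_sum_le (K := K) (Finset.range m) fun _ => (1 : K)
  simp only [Finset.sum_const, Finset.card_range, nsmul_eq_mul, mul_one, logHeight₁_one, mul_zero, add_zero] at h
  exact h

theorem logHeight₁_ratCast_le (q : ℚ) [CharZero K] :
    logHeight₁ (q : K) ≤ totalWeight K * (Real.log q.num.natAbs + Real.log q.den) := by
  have h1 : (q : K) = (q.num : K) * (q.den : K)⁻¹ := by
    rw [← div_eq_mul_inv]
    exact Rat.cast_def q
  have h2 : logHeight₁ (q.num : K) = logHeight₁ ((q.num.natAbs : ℕ) : K) := by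
    rcases Int.natAbs_eq q.num with h | h
    · conv_lhs => rw [h]
      rw [Int.cast_natCast]
    · conv_lhs => rw [h]
      rw [Int.cast_neg, Int.cast_natCast, logHeight₁_neg]
  rw [h1]
  refine (logHeight₁_mul_le _ _).trans ?_
  rw [logHeight₁_inv, h2, mul_add]
  exact add_le_add (logHeight₁_natCast_le _) (logHeight₁_natCast_le _)

end

end Pool.Agent.KS6_8.VJ
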