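import Mathlib
import Pool.Agent.KS6_8.VJ.Ht
import Pool.Agent.KS6_16.VJ.Defs2

/-!
StO4: heights of functions are bounded by the height of `t`.
-/

set_option autoImplicit false

namespace Pool.Agent.KS6_8.VJ

open Height Height.AdmissibleAbsValues Polynomial NumberField

theorem tw_le {L : Type} [Field L] [NumberField L] {n : ℕ} (h : Module.finrank ℚ L ≤ n) :
    (totalWeight L : ℝ) ≤ n := by
  rw [NumberField.totalWeight_eq_finrank]
  exact_mod_cast h

/-- heights of constants -/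
theorem const_bound {k : Type} [Field k] [NumberField k] (n : ℕ) (a : k) :
    ∃ A : ℝ, 0 ≤ A ∧ ∀ (L : Type) [Field L] [NumberField L], Module.finrank ℚ L ≤ n → ∀ σ : k →+* L,
      logHeight₁ (σ a) ≤ A := by
  have ha : IsIntegral ℚ a := Algebra.IsIntegral.isIntegral a
  set p := minpoly ℚ a with hp
  refine ⟨n * Real.log p.natDegree + ∑ i ∈ Finset.range p.natDegree,
    n * (Real.log (p.coeff i).num.natAbs + Real.log (p.coeff i).den), ?_, ?_⟩
  · positivity
  · intro L _ _ hn σ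
    have h1 := logHeight₁_root (p.map (algebraMap ℚ L)) ((minpoly.monic ha).map _) (σ a) (by
      rw [eval_map]
      have h2 : algebraMap ℚ L = σ.comp (algebraMap ℚ k) := RingHom.ext_rat _ _
      have h3 := minpoly.aeval ℚ a
      rw [aeval_def] at h3
      rw [h2, ← hom_eval₂, h3, map_zero])
    rw [natDegree_map] at h1
    refine h1.trans (add_le_add ?_ (Finset.sum_le_sum fun i _ => ?_))
    · exact mul_le_mul_of_nonneg_right (tw_le hn) (by positivity)
    · rw [coeff_map]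
      have h4 := logHeight₁_ratCast_le (K := L) (p.coeff i)
      rw [← eq_ratCast (algebraMap ℚ L)] at h4
      exact h4.trans (mul_le_mul_of_nonneg_right (tw_le hn) (by positivity))

/-- heights of values of polynomials -/
theorem poly_bound {k : Type} [Field k] [NumberField k] (n : ℕ) (c : k[X]) :
    ∃ A : ℝ, 0 ≤ A ∧ ∀ (L : Type) [Field L] [NumberField L], Module.finrank ℚ L ≤ n → ∀ (σ : k →+* L) (τ : L),
      logHeight₁ (c.eval₂ σ τ) ≤ A * (1 + logHeight₁ τ) := by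
  choose B hB0 hB using fun a : k => const_bound n a
  refine ⟨n * Real.log (c.natDegree + 1 : ℕ) + ∑ i ∈ Finset.range (c.natDegree + 1), (B (c.coeff i) + i), ?_, ?_⟩
  · have : 0 ≤ ∑ i ∈ Finset.range (c.natDegree + 1), (B (c.coeff i) + i) :=
      Finset.sum_nonneg fun i _ => add_nonneg (hB0 _) (Nat.cast_nonneg _)
    have : 0 ≤ Real.log (c.natDegree + 1 : ℕ) := Real.log_natCast_nonneg _
    positivity
  · intro L _ _ hn σ τ
    have h0 := zero_le_logHeight₁ τ
    have h1 := logHeight₁_eval (c.map σ) τ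
    rw [eval_map, natDegree_map] at h1
    refine h1.trans ?_
    rw [add_mul, Finset.sum_mul]
    refine add_le_add ?_ (Finset.sum_le_sum fun i _ => ?_)
    · have h2 : 0 ≤ Real.log (c.natDegree + 1 : ℕ) := Real.log_natCast_nonneg _
      have h3 : (totalWeight L : ℝ) * Real.log (c.natDegree + 1 : ℕ) ≤ n * Real.log (c.natDegree + 1 : ℕ) :=
        mul_le_mul_of_nonneg_right (tw_le hn) h2
      have h4 : 0 ≤ (n : ℝ) * Real.log (c.natDegree + 1 : ℕ) := by positivity
      nlinarith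
    · rw [coeff_map]
      have h2 := hB (c.coeff i) L hn σ
      have h3 := hB0 (c.coeff i)
      have h4 : (0 : ℝ) ≤ i := Nat.cast_nonneg i
      nlinarith

section

variable {k F : Type} [Field k] [NumberField k] [Field F] [Algebra k F]

omit [NumberField k] [Algebra k F] in
theorem ev_mul {L : Type} [Field L] {O : ValuationSubring F} (Φ : O →+* L) {x y : F} (hx : x ∈ O) (hy : y ∈ O) :
    KS6_16.VJ.ev Φ (x * y) = KS6_16.VJ.ev Φ x * KS6_16.VJ.ev Φ y := by
  rw [KS6_16.VJ.ev, KS6_16.VJ.ev, KS6_16.VJ.ev, dif_pos hx, dif_pos hy, dif_pos (O.mul_mem _ _ hx hy), ← map_mul]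
  rfl

omit [NumberField k] in
theorem exists_denom (t : F) (ht : Algebra.IsAlgebraic (IntermediateField.adjoin k {t}) F) (α : F) :
    ∃ a : k[X], a ≠ 0 ∧ (∃ P : k[X][X], P.Monic ∧ eval₂ (aeval t : k[X] →ₐ[k] F).toRingHom (aeval t a * α) P = 0) := by
  open IntermediateField.algebraAdjoinAdjoin in
  have h0 : Algebra.IsAlgebraic (Algebra.adjoin k {t}) (IntermediateField.adjoin k {t}) :=
    IsLocalization.isAlgebraic _ (nonZeroDivisors (Algebra.adjoin k {t}))
  have h1 : Algebra.IsAlgebraic (Algebra.adjoin k {t}) F :=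
    Algebra.IsAlgebraic.trans (Algebra.adjoin k {t}) (IntermediateField.adjoin k {t}) F
  obtain ⟨y, hy, P, hP, hP0⟩ := (h1.isAlgebraic α).exists_integral_multiple
  have hsurj' : ∀ z ∈ Algebra.adjoin k {t}, ∃ a : k[X], aeval t a = z := fun z hz => by
    rw [Algebra.adjoin_singleton_eq_range_aeval] at hz
    exact hz
  have hsurj : ∀ z : Algebra.adjoin k {t}, ∃ a : k[X], aeval t a = (z : F) := fun z => hsurj' z z.2
  obtain ⟨a, ha⟩ := hsurj y
  refine ⟨a, ?_, ?_⟩
  · rintro rfl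
    rw [map_zero] at ha
    exact hy (Subtype.ext ha.symm)
  · let f : k[X] →+* Algebra.adjoin k {t} :=
      (aeval (⟨t, Algebra.self_mem_adjoin_singleton k t⟩ : Algebra.adjoin k {t}) : k[X] →ₐ[k] Algebra.adjoin k {t}).toRingHom
    have hf : ∀ b : k[X], ((f b : Algebra.adjoin k {t}) : F) = aeval t b := fun b => by
      show algebraMap (Algebra.adjoin k {t}) F (aeval (⟨t, Algebra.self_mem_adjoin_singleton k t⟩ : Algebra.adjoin k {t}) b) = _
      rw [← aeval_algebraMap_apply]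
      rfl
    have hfs : Function.Surjective f := fun z => by
      obtain ⟨b, hb⟩ := hsurj z
      exact ⟨b, Subtype.ext ((hf b).trans hb)⟩
    obtain ⟨Q, hQ1, -, hQ3⟩ := Polynomial.lifts_and_natDegree_eq_and_monic (f := f) (p := P)
      ((Polynomial.mem_lifts _).2 (Polynomial.map_surjective f hfs P)) hP
    refine ⟨Q, hQ3, ?_⟩
    rw [← hQ1, eval₂_map] at hP0
    have e1 : (algebraMap (Algebra.adjoin k {t}) F).comp f = (aeval t : k[X] →ₐ[k] F).toRingHom := by
      ext b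
      · exact hf _
      · exact hf _
    rw [e1] at hP0
    rw [ha]
    exact hP0

/-- the bound for one function -/
theorem fun_bound (n : ℕ) (t : F) (ht : Algebra.IsAlgebraic (IntermediateField.adjoin k {t}) F) (α : F) :
    ∃ A : ℝ, 0 ≤ A ∧ ∃ a₀ : k[X], a₀ ≠ 0 ∧ ∀ (L : Type) [Field L] [NumberField L], Module.finrank ℚ L ≤ n →
      ∀ (O : ValuationSubring F) (Φ : O →+* L), (∀ a : k, algebraMap k F a ∈ O) → t ∈ O → α ∈ O →
      KS6_16.VJ.ev Φ (aeval t a₀) ≠ 0 →
      logHeight₁ (KS6_16.VJ.ev Φ α) ≤ A * (1 + logHeight₁ (KS6_16.VJ.ev Φ t)) := by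
  obtain ⟨a₀, ha₀, P, hP, hP0⟩ := exists_denom t ht α
  choose A hA0 hA using fun c : k[X] => poly_bound n c
  refine ⟨n * Real.log P.natDegree + ∑ i ∈ Finset.range P.natDegree, A (P.coeff i) + A a₀, ?_, a₀, ha₀, ?_⟩
  · have : 0 ≤ ∑ i ∈ Finset.range P.natDegree, A (P.coeff i) := Finset.sum_nonneg fun i _ => hA0 _
    have h2 : 0 ≤ (n : ℝ) * Real.log P.natDegree := mul_nonneg (Nat.cast_nonneg _) (Real.log_natCast_nonneg _)
    have := hA0 a₀
    linarith
  intro L _ _ hn O Φ hk htO hα hne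
  let ιO : k →+* O := (algebraMap k F).codRestrict O.toSubring hk
  let E : k[X] →+* O := eval₂RingHom ιO ⟨t, htO⟩
  have hE : ∀ c : k[X], ((E c : O) : F) = aeval t c := fun c => by
    show O.subtype (eval₂ ιO ⟨t, htO⟩ c) = _
    rw [hom_eval₂]
    rfl
  have hEv : ∀ c : k[X], KS6_16.VJ.ev Φ (aeval t c) = Φ (E c) := fun c => by
    have h1 : aeval t c ∈ O := by rw [← hE]; exact (E c).2
    rw [KS6_16.VJ.ev, dif_pos h1]
    congr 1
    exact Subtype.ext (hE c).symm
  have hEΦ : ∀ c : k[X], Φ (E c) = eval₂ (Φ.comp ιO) (Φ ⟨t, htO⟩) c := fun c => by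
    show Φ (eval₂ ιO ⟨t, htO⟩ c) = _
    rw [hom_eval₂]
  have hτ : KS6_16.VJ.ev Φ t = Φ ⟨t, htO⟩ := by rw [KS6_16.VJ.ev, dif_pos htO]
  have hα' : KS6_16.VJ.ev Φ α = Φ ⟨α, hα⟩ := by rw [KS6_16.VJ.ev, dif_pos hα]
  rw [hEv] at hne
  rw [hτ, hα']
  set τ := Φ ⟨t, htO⟩ with hτdef
  have hroot : eval₂ E (E a₀ * ⟨α, hα⟩) P = 0 := by
    have h1 : (O.subtype : O → F) (eval₂ E (E a₀ * ⟨α, hα⟩) P) = 0 := by
      rw [hom_eval₂, map_mul]
      have e1 : (O.subtype : O →+* F).comp E = (aeval t : k[X] →ₐ[k] F).toRingHom := by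
        ext b
        · exact hE _
        · exact hE _
      have e2 : O.subtype (E a₀) = aeval t a₀ := hE a₀
      rw [e1, e2]
      exact hP0
    exact Subtype.ext h1
  have hroot2 : (P.map (Φ.comp E)).eval (Φ (E a₀) * Φ ⟨α, hα⟩) = 0 := by
    rw [eval_map, ← map_mul, ← hom_eval₂, hroot, map_zero]
  have h3 := logHeight₁_root _ (hP.map (Φ.comp E)) _ hroot2
  rw [hP.natDegree_map] at h3
  have h4 : ∀ i, logHeight₁ ((P.map (Φ.comp E)).coeff i) ≤ A (P.coeff i) * (1 + logHeight₁ τ) := fun i => by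
    rw [coeff_map, RingHom.comp_apply, hEΦ]
    exact hA (P.coeff i) L hn _ _
  have h5 : logHeight₁ (Φ (E a₀)) ≤ A a₀ * (1 + logHeight₁ τ) := by
    rw [hEΦ]
    exact hA a₀ L hn _ _
  have h6 : logHeight₁ (Φ ⟨α, hα⟩) ≤ logHeight₁ (Φ (E a₀) * Φ ⟨α, hα⟩) + logHeight₁ (Φ (E a₀)) := by
    have e1 : Φ ⟨α, hα⟩ = (Φ (E a₀) * Φ ⟨α, hα⟩) * (Φ (E a₀))⁻¹ := by
      field_simp
    conv_lhs => rw [e1]
    refine (logHeight₁_mul_le _ _).trans ?_
    rw [logHeight₁_inv]
  have h7 : ∑ i ∈ Finset.range P.natDegree, logHeight₁ ((P.map (Φ.comp E)).coeff i) ≤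
      (∑ i ∈ Finset.range P.natDegree, A (P.coeff i)) * (1 + logHeight₁ τ) := by
    rw [Finset.sum_mul]
    exact Finset.sum_le_sum fun i _ => h4 i
  have h0 := zero_le_logHeight₁ τ
  have h8 : (totalWeight L : ℝ) * Real.log P.natDegree ≤ n * Real.log P.natDegree :=
    mul_le_mul_of_nonneg_right (tw_le hn) (Real.log_natCast_nonneg _)
  have h9 : 0 ≤ (n : ℝ) * Real.log P.natDegree := mul_nonneg (Nat.cast_nonneg _) (Real.log_natCast_nonneg _)
  nlinarith

end

theorem stO4 : KS6_16.VJ.StO4 := by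
  classical
  intro k F _ _ _ _ t ht halg m α n
  choose A hA0 a₀ ha₀ h using fun i => fun_bound n t halg (α i)
  refine ⟨∑ i, A i, ∏ i, a₀ i, Finset.prod_ne_zero_iff.2 fun i _ => ha₀ i, ?_⟩
  intro L _ _ hn O Φ hO htO hα hne
  refine (logHeight_le_sum _).trans ?_
  rw [Finset.sum_mul]
  refine Finset.sum_le_sum fun i _ => h i L hn O Φ hO.1 htO (hα i) ?_
  intro h0
  apply hne
  have hmem : ∀ c : k[X], aeval t c ∈ O := fun c => by
    rw [aeval_eq_sum_range]
    refine sum_mem fun j _ => ?_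
    rw [Algebra.smul_def]
    exact O.mul_mem _ _ (hO.1 _) (pow_mem htO j)
  rw [← Finset.mul_prod_erase _ _ (Finset.mem_univ i), map_mul, ev_mul Φ (hmem _) (hmem _), h0, zero_mul]

end Pool.Agent.KS6_8.VJ
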