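import Mathlib
import Pool.Agent.KS6_16.VJ.Defs2

/-!
Points of the curve over number fields: the field and the valuation ring.
-/

set_option autoImplicit false

namespace Pool.Agent.KS6_8.VJ

open nonZeroDivisors NumberField IsDedekindDomain

theorem exists_place' {B F L : Type} [CommRing B] [IsDedekindDomain B] [Field F] [Algebra B F] [IsFractionRing B F]
    [Field L] (ψ : B →+* L) (v : HeightOneSpectrum B) (hv : v.asIdeal = RingHom.ker ψ) :
    ∃ (Φ : HeightOneSpectrum.valuationSubringAtPrime F v →+* L)
      (hB : ∀ x : B, algebraMap B F x ∈ HeightOneSpectrum.valuationSubringAtPrime F v),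
      HeightOneSpectrum.valuationSubringAtPrime F v ≠ ⊤ ∧
      (∀ x, Φ ⟨algebraMap B F x, hB x⟩ = ψ x) ∧
      (∀ a s : B, ψ s ≠ 0 → algebraMap B F a / algebraMap B F s ∈ HeightOneSpectrum.valuationSubringAtPrime F v) := by
  have hunit : ∀ y : v.asIdeal.primeCompl, IsUnit (ψ y) := fun y => by
    rw [isUnit_iff_ne_zero]
    intro h
    have h1 : (y : B) ∈ RingHom.ker ψ := h
    rw [← hv] at h1
    exact y.2 h1
  let Φ : HeightOneSpectrum.valuationSubringAtPrime F v →+* L :=
    IsLocalization.lift (M := v.asIdeal.primeCompl) (S := HeightOneSpectrum.valuationSubringAtPrime F v) (g := ψ) hunit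
  have hB : ∀ x : B, algebraMap B F x ∈ HeightOneSpectrum.valuationSubringAtPrime F v := fun x =>
    (algebraMap B (HeightOneSpectrum.valuationSubringAtPrime F v) x).2
  refine ⟨Φ, hB, ?_, ?_, ?_⟩
  · rw [HeightOneSpectrum.valuationSubringAtPrime_eq_valuationSubring, Ne, Valuation.valuationSubring_eq_top_iff, not_not]
    infer_instance
  · intro x
    exact IsLocalization.lift_eq (M := v.asIdeal.primeCompl) (S := HeightOneSpectrum.valuationSubringAtPrime F v) hunit x
  · intro a s hs
    have hs' : s ∈ v.asIdeal.primeCompl := fun h => hs (by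
      have : s ∈ RingHom.ker ψ := by rw [← hv]; exact h
      exact this)
    have h1 := (IsLocalization.mk' (HeightOneSpectrum.valuationSubringAtPrime F v) a ⟨s, hs'⟩).2
    have h2 : ((IsLocalization.mk' (HeightOneSpectrum.valuationSubringAtPrime F v) a ⟨s, hs'⟩ :
        HeightOneSpectrum.valuationSubringAtPrime F v) : F) = algebraMap B F a / algebraMap B F s := by
      have h3 : (IsLocalization.mk' (HeightOneSpectrum.valuationSubringAtPrime F v) a ⟨s, hs'⟩) *
          algebraMap B (HeightOneSpectrum.valuationSubringAtPrime F v) s =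
          algebraMap B (HeightOneSpectrum.valuationSubringAtPrime F v) a :=
        IsLocalization.mk'_spec (HeightOneSpectrum.valuationSubringAtPrime F v) a ⟨s, hs'⟩
      have h4 := congrArg (fun y : HeightOneSpectrum.valuationSubringAtPrime F v => (y : F)) h3
      have h7 : algebraMap B F s ≠ 0 := by
        rw [Ne, IsFractionRing.to_map_eq_zero_iff]
        rintro rfl
        exact hs (map_zero ψ)
      rw [eq_div_iff h7]
      exact h4
    rw [← h2]
    exact h1

/-- the valuation ring of a point -/
theorem exists_place {B F L : Type} [CommRing B] [IsDedekindDomain B] [Field F] [Algebra B F] [IsFractionRing B F]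
    [Field L] (ψ : B →+* L) (hψ : ∃ x, x ≠ 0 ∧ ψ x = 0) :
    ∃ (O : ValuationSubring F) (Φ : O →+* L) (hB : ∀ x : B, algebraMap B F x ∈ O), O ≠ ⊤ ∧
      (∀ x, Φ ⟨algebraMap B F x, hB x⟩ = ψ x) ∧
      (∀ a s : B, ψ s ≠ 0 → algebraMap B F a / algebraMap B F s ∈ O) := by
  obtain ⟨x₀, hx₀, hx₀'⟩ := hψ
  let v : HeightOneSpectrum B :=
    { asIdeal := RingHom.ker ψ
      isPrime := RingHom.ker_isPrime ψ
      ne_bot := fun h => hx₀ (by
        have : x₀ ∈ RingHom.ker ψ := hx₀'
        rw [h] at this
        exact this) }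
  exact ⟨_, exists_place' ψ v rfl⟩

/-- the number field generated by the values -/
theorem exists_field {R B : Type} [CommRing R] [CommRing B] [Algebra R B] (s : Finset B)
    (hs : Submodule.span R (s : Set B) = ⊤) {K₁ : Type} [Field K₁] [NumberField K₁] [Algebra K₁ ℂ]
    (φ : B →+* ℂ) (hφ : ∀ r : R, φ (algebraMap R B r) ∈ (algebraMap K₁ ℂ).range) :
    ∃ (L : Type) (_ : Field L) (_ : NumberField L) (_ : Algebra K₁ L) (ψ : B →+* L) (τ : L →+* ℂ),
      Module.finrank ℚ L ≤ Module.finrank ℚ K₁ * s.card ∧ (∀ x, τ (ψ x) = φ x) ∧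
      (∀ x, τ (algebraMap K₁ L x) = algebraMap K₁ ℂ x) ∧ Algebra.adjoin K₁ (Set.range ψ) = ⊤ := by
  classical
  set A : Subalgebra K₁ ℂ := Algebra.adjoin K₁ (Set.range φ) with hA
  have hspan : Subalgebra.toSubmodule A = Submodule.span K₁ ((s.image φ : Finset ℂ) : Set ℂ) := by
    refine le_antisymm ?_ ?_
    · rw [hA, Algebra.adjoin_eq_span]
      refine Submodule.span_le.2 ?_
      have h1 : (Submonoid.closure (Set.range φ) : Set ℂ) ⊆ Set.range φ := by
        have h2 : Submonoid.closure (Set.range φ) ≤ MonoidHom.mrange (φ : B →* ℂ) :=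
          Submonoid.closure_le.2 fun y hy => hy
        exact h2
      refine h1.trans ?_
      rintro _ ⟨x, rfl⟩
      have hx : x ∈ Submodule.span R (s : Set B) := by rw [hs]; trivial
      induction hx using Submodule.span_induction with
      | mem x hx => exact Submodule.subset_span (by rw [Finset.coe_image]; exact ⟨x, hx, rfl⟩)
      | zero => rw [map_zero]; exact Submodule.zero_mem _
      | add x y _ _ hx hy => rw [map_add]; exact Submodule.add_mem _ hx hy
      | smul r x _ hx =>
        obtain ⟨c, hc⟩ := hφ r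
        rw [Algebra.smul_def, map_mul, ← hc, ← Algebra.smul_def]
        exact Submodule.smul_mem _ c hx
    · refine Submodule.span_le.2 ?_
      rw [Finset.coe_image]
      rintro _ ⟨x, -, rfl⟩
      exact Algebra.subset_adjoin ⟨x, rfl⟩
  have hfin : FiniteDimensional K₁ A := by
    have : FiniteDimensional K₁ (Submodule.span K₁ ((s.image φ : Finset ℂ) : Set ℂ)) :=
      FiniteDimensional.span_finset K₁ _
    rw [← hspan] at this
    exact this
  have hcard : Module.finrank K₁ A ≤ s.card := by
    have h1 : Module.finrank K₁ (Submodule.span K₁ ((s.image φ : Finset ℂ) : Set ℂ)) ≤ (s.image φ).card :=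
      finrank_span_finset_le_card _
    rw [← hspan] at h1
    exact h1.trans Finset.card_image_le
  have hfield : IsField A := by
    have : Algebra.IsIntegral K₁ A := inferInstance
    exact isField_of_isIntegral_of_isField' (Field.toIsField K₁)
  let E : IntermediateField K₁ ℂ := A.toIntermediateField' hfield
  have hE : E.toSubalgebra = A := toSubalgebra_toIntermediateField' A hfield
  have hmem : ∀ x, φ x ∈ E := fun x => by
    rw [← IntermediateField.mem_toSubalgebra, hE]
    exact Algebra.subset_adjoin ⟨x, rfl⟩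
  have hEfin : FiniteDimensional K₁ E := by
    have : FiniteDimensional K₁ E.toSubalgebra := by rw [hE]; exact hfin
    exact this
  have hEcard : Module.finrank K₁ E ≤ s.card := by
    have : Module.finrank K₁ E.toSubalgebra ≤ s.card := by rw [hE]; exact hcard
    exact this
  have hNF : NumberField E := by
    have h0 : FiniteDimensional ℚ E := Module.Finite.trans K₁ E
    exact { to_charZero := inferInstance, to_finiteDimensional := h0 }
  let ψ : B →+* E := φ.codRestrict E hmem
  refine ⟨E, inferInstance, hNF, inferInstance, ψ, (algebraMap E ℂ), ?_, fun x => rfl, fun x => rfl, ?_⟩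
  · rw [← Module.finrank_mul_finrank ℚ K₁ E]
    exact Nat.mul_le_mul_left _ hEcard
  · have hinj : Function.Injective (Subalgebra.map E.val) := Subalgebra.map_injective (fun x y h => Subtype.ext h)
    apply hinj
    rw [AlgHom.map_adjoin, Algebra.map_top]
    have h1 : E.val '' Set.range ψ = Set.range φ := by
      ext y
      constructor
      · rintro ⟨_, ⟨x, rfl⟩, rfl⟩
        exact ⟨x, rfl⟩
      · rintro ⟨x, rfl⟩
        exact ⟨_, ⟨x, rfl⟩, rfl⟩
    rw [h1, ← hA, ← hE]
    ext y
    rw [IntermediateField.mem_toSubalgebra, AlgHom.mem_range]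
    exact ⟨fun hy => ⟨⟨y, hy⟩, rfl⟩, fun ⟨x, hx⟩ => hx ▸ x.2⟩

end Pool.Agent.KS6_8.VJ
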