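import Mathlib
import Pool.Agent.KS6_8.VJ.W2a
import Pool.Agent.KS6_8.VJ.St2

/-!
Points of the curve over number fields.
-/

set_option autoImplicit false

namespace Pool.Agent.KS6_8.VJ

open nonZeroDivisors NumberField IsDedekindDomain Polynomial
open scoped LaurentPolynomial

section

variable {k : Type} [Field k] [NumberField k] {B : Type} [CommRing B] [Algebra k[T;T⁻¹] B]

theorem residue [Module.Finite k[T;T⁻¹] B] (P : Ideal B) (hP : P.IsMaximal) :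
    ∃ (K₁ : Type) (_ : Field K₁) (_ : NumberField K₁) (π : B →+* K₁), RingHom.ker π = P := by
  let iF : Field (B ⧸ P) := Ideal.Quotient.field P
  let ikB : Algebra k B := ((algebraMap k[T;T⁻¹] B).comp LaurentPolynomial.C).toAlgebra
  have : IsScalarTower k k[T;T⁻¹] B := IsScalarTower.of_algebraMap_eq fun _ => rfl
  have h1 : Algebra.FiniteType k k[T;T⁻¹] := inferInstance
  have h2 : Algebra.FiniteType k[T;T⁻¹] B := inferInstance
  have h3 : Algebra.FiniteType k B := Algebra.FiniteType.trans h1 h2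
  have h4 : Algebra.FiniteType k (B ⧸ P) :=
    Algebra.FiniteType.of_surjective (Ideal.Quotient.mkₐ k P) (Ideal.Quotient.mkₐ_surjective k P)
  have h5 : Module.Finite k (B ⧸ P) := finite_of_finite_type_of_isJacobsonRing k (B ⧸ P)
  have h6 : CharZero (B ⧸ P) := charZero_of_injective_algebraMap (FaithfulSMul.algebraMap_injective k (B ⧸ P))
  have h7 : FiniteDimensional ℚ (B ⧸ P) := Module.Finite.trans k (B ⧸ P)
  exact ⟨B ⧸ P, iF, { to_charZero := h6, to_finiteDimensional := h7 }, Ideal.Quotient.mk P, Ideal.mk_ker⟩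

omit [NumberField k] in
theorem eval_laurent {K₁ L : Type} [Field K₁] [Field L] [Algebra K₁ L] (ι : k →+* K₁) (u : K₁) (ψ : B →+* L)
    (h1 : ψ (algebraMap k[T;T⁻¹] B (LaurentPolynomial.T 1)) = algebraMap K₁ L u)
    (h2 : ∀ a : k, ψ (algebraMap k[T;T⁻¹] B (LaurentPolynomial.C a)) = algebraMap K₁ L (ι a)) (p : k[X]) :
    ψ (algebraMap k[T;T⁻¹] B (toLaurent p)) = algebraMap K₁ L (p.eval₂ ι u) := by
  have h3 : (ψ.comp (algebraMap k[T;T⁻¹] B)).comp (toLaurent : k[X] →+* k[T;T⁻¹]) =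
      (algebraMap K₁ L).comp (eval₂RingHom ι u) := by
    refine Polynomial.ringHom_ext (fun a => ?_) ?_
    · simp only [RingHom.comp_apply, toLaurent_C, coe_eval₂RingHom, eval₂_C]
      exact h2 a
    · simp only [RingHom.comp_apply, toLaurent_X, coe_eval₂RingHom, eval₂_X]
      exact h1
  exact congrArg (fun f : k[X] →+* L => f p) h3

theorem exists_bad [Module.Finite k[T;T⁻¹] B] [FaithfulSMul k[T;T⁻¹] B] [IsDomain B] {K₁ : Type} [Field K₁]
    [CharZero K₁] (ι : k →+* K₁) (β : K₁) (hβ : β ≠ 0) (a : B) (ha : a ≠ 0) :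
    ∃ bad : Set ℚ, bad.Finite ∧ ∀ w : ℚ, w ∉ bad → ∀ (L : Type) [Field L] [Algebra K₁ L] (ψ : B →+* L),
      ψ (algebraMap k[T;T⁻¹] B (LaurentPolynomial.T 1)) = algebraMap K₁ L (β * (w : K₁)) →
      (∀ a : k, ψ (algebraMap k[T;T⁻¹] B (LaurentPolynomial.C a)) = algebraMap K₁ L (ι a)) → ψ a ≠ 0 := by
  classical
  have h1 : (Ideal.span {a}).comap (algebraMap k[T;T⁻¹] B) ≠ ⊥ :=
    Ideal.comap_ne_bot_of_integral_mem ha (Ideal.mem_span_singleton_self a) (Algebra.IsIntegral.isIntegral a)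
  obtain ⟨r, hr, hr0⟩ := Submodule.exists_mem_ne_zero_of_ne_bot h1
  obtain ⟨b, hb⟩ := Ideal.mem_span_singleton'.1 (Ideal.mem_comap.1 hr)
  obtain ⟨n, p, hp⟩ := LaurentPolynomial.exists_T_pow r
  have hp0 : p ≠ 0 := by
    rintro rfl
    rw [map_zero] at hp
    exact mul_ne_zero hr0 (LaurentPolynomial.isUnit_T (R := k) n).ne_zero hp.symm
  have hpm : p.map ι ≠ 0 := (Polynomial.map_ne_zero_iff ι.injective).2 hp0
  refine ⟨(fun w : ℚ => β * (w : K₁)) ⁻¹' ((p.map ι).roots.toFinset : Set K₁), ?_, ?_⟩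
  · refine Set.Finite.preimage ?_ (Finset.finite_toSet _)
    intro w _ w' _ h
    have h2 : (w : K₁) = (w' : K₁) := mul_left_cancel₀ hβ h
    exact_mod_cast h2
  · intro w hw L _ _ ψ h2 h3 h4
    apply hw
    rw [Set.mem_preimage, Finset.mem_coe, Multiset.mem_toFinset, mem_roots hpm, IsRoot.def, eval_map]
    have h5 := eval_laurent ι (β * (w : K₁)) ψ h2 h3 p
    rw [hp, map_mul, ← hb, map_mul, map_mul, h4, mul_zero, zero_mul] at h5
    exact (algebraMap K₁ L).injective (h5.symm.trans (map_zero _).symm)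

theorem exists_ker [FaithfulSMul k[T;T⁻¹] B] {K₁ L : Type} [Field K₁] [NumberField K₁] [Field L] [Algebra K₁ L]
    (ι : k →+* K₁) (u : K₁) (ψ : B →+* L)
    (h1 : ψ (algebraMap k[T;T⁻¹] B (LaurentPolynomial.T 1)) = algebraMap K₁ L u)
    (h2 : ∀ a : k, ψ (algebraMap k[T;T⁻¹] B (LaurentPolynomial.C a)) = algebraMap K₁ L (ι a)) :
    ∃ x, x ≠ 0 ∧ ψ x = 0 := by
  have hu : IsIntegral ℚ u := Algebra.IsIntegral.isIntegral u
  refine ⟨algebraMap k[T;T⁻¹] B (toLaurent ((minpoly ℚ u).map (algebraMap ℚ k))), ?_, ?_⟩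
  · rw [Ne, map_eq_zero_iff _ (FaithfulSMul.algebraMap_injective k[T;T⁻¹] B), map_eq_zero_iff _ Polynomial.toLaurent_injective,
      Polynomial.map_eq_zero_iff (algebraMap ℚ k).injective]
    exact minpoly.ne_zero hu
  · rw [eval_laurent ι u ψ h1 h2, eval₂_map]
    have h3 : ι.comp (algebraMap ℚ k) = algebraMap ℚ K₁ := RingHom.ext_rat _ _
    rw [h3]
    have h4 := minpoly.aeval ℚ u
    rw [aeval_def] at h4
    rw [h4, map_zero]

end

theorem stW2 (h4 : KS6_16.VJ.StM4) : KS6_16.VJ.StW2 := by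
  classical
  intro k F _ _ _ _ t B _ _ _ _ _ _ _ ht hk P S hP hS
  obtain ⟨K₁, iK, iN, π, hπ⟩ := residue (k := k) P hP
  obtain ⟨σ⟩ : Nonempty (K₁ →+* ℂ) := inferInstance
  set ι : k →+* K₁ := (π.comp (algebraMap k[T;T⁻¹] B)).comp LaurentPolynomial.C with hι
  set β : K₁ := π (algebraMap k[T;T⁻¹] B (LaurentPolynomial.T 1)) with hβdef
  have hTT : (LaurentPolynomial.T 1 : k[T;T⁻¹]) * LaurentPolynomial.T (-1) = 1 := by
    rw [← LaurentPolynomial.T_add]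
    simp
  have hβ : β ≠ 0 := by
    intro h0
    have h1 := congrArg (fun x => π (algebraMap k[T;T⁻¹] B x)) hTT
    simp only [map_mul, map_one] at h1
    rw [← hβdef, h0, zero_mul] at h1
    exact zero_ne_one h1
  have hσβ : 0 < ‖σ β‖ := by
    rw [norm_pos_iff]
    exact (map_ne_zero σ).2 hβ
  obtain ⟨A, c, ρ, hA, hc, hρ, H⟩ := h4 k B (σ.comp π) S (fun g hg => by
    have : g ∈ RingHom.ker π := by rw [hπ]; exact hS g hg
    rw [RingHom.comp_apply, (this : π g = 0), map_zero])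
  obtain ⟨s, hs⟩ := Module.Finite.fg_top (R := k[T;T⁻¹]) (M := B)
  refine ⟨K₁, iK, iN, ι, β, Module.finrank ℚ K₁ * s.card, A * ‖σ β‖ ^ c, c, ρ / ‖σ β‖, hβ, by positivity, hc,
    by positivity, ?_⟩
  intro Γ hΓ
  have hfrac : ∀ g : F, ∃ x y : B, y ≠ 0 ∧ algebraMap B F x / algebraMap B F y = g := fun g => by
    obtain ⟨x, y, hy, h⟩ := IsFractionRing.div_surjective B g
    exact ⟨x, y, nonZeroDivisors.ne_zero hy, h⟩
  choose nu de hde hnd using hfrac
  have hnu : ∀ g ∈ Γ, nu g ≠ 0 := fun g hg h0 => hΓ g hg (by rw [← hnd g, h0, map_zero, zero_div])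
  have hbad1 : ∀ g : F, ∃ bad : Set ℚ, bad.Finite ∧ ∀ w : ℚ, w ∉ bad → ∀ (L : Type) [Field L] [Algebra K₁ L] (ψ : B →+* L),
      ψ (algebraMap k[T;T⁻¹] B (LaurentPolynomial.T 1)) = algebraMap K₁ L (β * (w : K₁)) →
      (∀ a : k, ψ (algebraMap k[T;T⁻¹] B (LaurentPolynomial.C a)) = algebraMap K₁ L (ι a)) → ψ (de g) ≠ 0 :=
    fun g => exists_bad ι β hβ (de g) (hde g)
  have hbad2 : ∀ g : F, ∃ bad : Set ℚ, bad.Finite ∧ (g ∈ Γ → ∀ w : ℚ, w ∉ bad → ∀ (L : Type) [Field L] [Algebra K₁ L] (ψ : B →+* L),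
      ψ (algebraMap k[T;T⁻¹] B (LaurentPolynomial.T 1)) = algebraMap K₁ L (β * (w : K₁)) →
      (∀ a : k, ψ (algebraMap k[T;T⁻¹] B (LaurentPolynomial.C a)) = algebraMap K₁ L (ι a)) → ψ (nu g) ≠ 0) := by
    intro g
    by_cases hg : g ∈ Γ
    · obtain ⟨bad, h1, h2⟩ := exists_bad ι β hβ (nu g) (hnu g hg)
      exact ⟨bad, h1, fun _ => h2⟩
    · exact ⟨∅, Set.finite_empty, fun h => absurd h hg⟩
  choose bad1 hb1 hb1' using hbad1
  choose bad2 hb2 hb2' using hbad2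
  refine ⟨⋃ g ∈ Γ, (bad1 g ∪ bad2 g), ?_, ?_⟩
  · exact Set.Finite.biUnion (Finset.finite_toSet Γ) fun g _ => (hb1 g).union (hb2 g)
  intro w hw hwρ
  have hw1 : ∀ g ∈ Γ, w ∉ bad1 g := fun g hg h => hw (Set.mem_biUnion hg (Or.inl h))
  have hw2 : ∀ g ∈ Γ, w ∉ bad2 g := fun g hg h => hw (Set.mem_biUnion hg (Or.inr h))
  have hdist : ‖σ (β * (w : K₁)) - (σ.comp π) (algebraMap k[T;T⁻¹] B (LaurentPolynomial.T 1))‖ = ‖σ β‖ * |(w : ℝ) - 1| := by
    have e1 : σ (β * (w : K₁)) - (σ.comp π) (algebraMap k[T;T⁻¹] B (LaurentPolynomial.T 1)) =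
        σ β * (((w : ℝ) - 1 : ℝ) : ℂ) := by
      rw [RingHom.comp_apply, ← hβdef, map_mul, map_ratCast]
      push_cast
      ring
    rw [e1, norm_mul, Complex.norm_real, Real.norm_eq_abs]
  obtain ⟨φ, hφ1, hφ2, hφ3⟩ := H (σ (β * (w : K₁))) (by
    rw [hdist, mul_comm]
    exact (lt_div_iff₀ hσβ).1 hwρ)
  let iC : Algebra K₁ ℂ := σ.toAlgebra
  obtain ⟨ev', hev', -, -⟩ := exists_ev (k := k) (K := K₁) φ (β * (w : K₁)) hφ2
    (fun a => ⟨ι a, hφ1 a⟩)
  obtain ⟨L, iL, iLN, iLA, ψ, τ, hdeg, hτψ, hτ, hgen⟩ := exists_field s hs (K₁ := K₁) φ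
    (fun r => ⟨ev' r, (hev' r).symm⟩)
  have hψ1 : ψ (algebraMap k[T;T⁻¹] B (LaurentPolynomial.T 1)) = algebraMap K₁ L (β * (w : K₁)) := by
    apply τ.injective
    rw [hτψ, hτ, hφ2]
    rfl
  have hψ2 : ∀ a : k, ψ (algebraMap k[T;T⁻¹] B (LaurentPolynomial.C a)) = algebraMap K₁ L (ι a) := by
    intro a
    apply τ.injective
    rw [hτψ, hτ, hφ1]
    rfl
  obtain ⟨O, Φ, hB, hO, hΦ, hdiv⟩ := exists_place (F := F) ψ (exists_ker ι (β * (w : K₁)) ψ hψ1 hψ2)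
  have hev : ∀ x : B, KS6_16.VJ.ev Φ (algebraMap B F x) = ψ x := fun x => by
    rw [KS6_16.VJ.ev, dif_pos (hB x)]
    exact hΦ x
  refine ⟨L, iL, iLN, iLA, O, Φ, InfinitePlace.mk τ, hdeg, ⟨fun a => ?_, hO⟩, fun a => ?_, ?_, ?_, ?_, hB, ?_, ?_, ?_⟩
  · rw [← hk]
    exact hB _
  · rw [← hk, hev, hψ2]
  · rw [← ht]
    exact hB _
  · have h1 : t⁻¹ = algebraMap B F (algebraMap k[T;T⁻¹] B (LaurentPolynomial.T (-1))) := by
      rw [← ht]
      refine inv_eq_of_mul_eq_one_right ?_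
      rw [← map_mul, ← map_mul, hTT, map_one, map_one]
    rw [h1]
    exact hB _
  · rw [← ht, hev, hψ1]
  · have h1 : (Set.range fun x : B => KS6_16.VJ.ev Φ (algebraMap B F x)) = Set.range ψ := by
      congr 1
      funext x
      exact hev x
    rw [h1]
    exact hgen
  · intro g hg
    have hd : ψ (de g) ≠ 0 := hb1' g w (hw1 g hg) L ψ hψ1 hψ2
    have hn : ψ (nu g) ≠ 0 := hb2' g hg w (hw2 g hg) L ψ hψ1 hψ2
    have hgO : g ∈ O := by
      rw [← hnd g]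
      exact hdiv _ _ hd
    refine ⟨hgO, fun h0 => hn ?_⟩
    rw [KS6_16.VJ.ev, dif_pos hgO] at h0
    have hde0 : algebraMap B F (de g) ≠ 0 := by
      rw [Ne, IsFractionRing.to_map_eq_zero_iff]
      exact hde g
    have h1 : (⟨g, hgO⟩ : O) * ⟨algebraMap B F (de g), hB _⟩ = ⟨algebraMap B F (nu g), hB _⟩ := by
      apply Subtype.ext
      show g * algebraMap B F (de g) = algebraMap B F (nu g)
      exact ((div_eq_iff hde0).1 (hnd g)).symm
    rw [← hΦ, ← h1, map_mul, h0, zero_mul]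
  · intro x hx
    rw [hev, InfinitePlace.apply, hτψ]
    refine (hφ3 x hx).trans (le_of_eq ?_)
    rw [hdist, Real.mul_rpow hσβ.le (abs_nonneg _)]
    ring

end Pool.Agent.KS6_8.VJ
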