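import Pool.Agent.KS6_8.VJ.W2
import Pool.Agent.KS6_58.VJ.M4

/-!
StW2 without hypotheses.
-/

namespace Pool.Agent.KS6_8.VJ

theorem stW2f : KS6_16.VJ.StW2 := stW2 Pool.Agent.KS6_58.VJ.M4

end Pool.Agent.KS6_8.VJ
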